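import Pool.Agent.Lib.MP_f31b39_co.FM.SmD

/-!
# FM-Al: the enumeration of lists, and the list of the `E_n`
-/

namespace TightIndep.FM

open Finset

private theorem Al_frc {α : Type} (x : ℕ) (f : ℕ → α) : frc x f = f x := by
  cases x <;> rfl

private theorem Al_band {b x : Bool} (h : band b x = true) : b = true ∧ x = true := by
  cases b
  · exact absurd h (by simp [band])
  · exact ⟨rfl, h⟩

private theorem Al_hd (L : List ℕ) : hd L = L.getD 0 0 := by
  cases L <;> rfl

private theorem Al_tl (L : List ℕ) (i : ℕ) : (tl L).getD i 0 = L.getD (i + 1) 0 := by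
  cases L <;> rfl

private noncomputable def Al_in (f : List ℕ → Bool) (h S : ℕ) (acc : List ℕ) : ℕ → Bool :=
  @Nat.rec (fun _ => Bool) (alls f h S (List.cons (nat_lit 0) acc)) fun a ihh =>
    band (frc (Nat.succ a) fun a' => alls f h (Nat.sub S a') (List.cons a' acc)) ihh

private theorem Al_in_spec (f : List ℕ → Bool) (h S : ℕ) (acc : List ℕ) (b : ℕ) (H : Al_in f h S acc b = true) :
    ∀ a ≤ b, alls f h (S - a) (a :: acc) = true := by
  induction b with
  | zero =>
    intro a ha
    obtain rfl : a = 0 := by omega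
    exact H
  | succ b ih =>
    intro a ha
    have H' : band (frc (Nat.succ b) fun a' => alls f h (Nat.sub S a') (List.cons a' acc)) (Al_in f h S acc b) = true := H
    obtain ⟨h1, h2⟩ := Al_band H'
    rcases Nat.lt_or_ge b a with hb | hb
    · obtain rfl : a = b + 1 := by omega
      rw [Al_frc] at h1
      exact h1
    · exact ih h2 a hb

theorem alls_spec (f : List ℕ → Bool) (h S : ℕ) (acc : List ℕ) (H : alls f h S acc = true) (l : List ℕ)
    (hl : l.length = h) (hs : l.sum ≤ S) : f (l ++ acc) = true := by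
  induction h generalizing S acc l with
  | zero =>
    have h1 : l = [] := List.length_eq_zero_iff.1 hl
    subst h1
    exact H
  | succ h ih =>
    rcases List.eq_nil_or_concat l with h1 | ⟨l', a, h1⟩
    · subst h1
      simp at hl
    · rw [List.concat_eq_append] at h1
      subst h1
      rw [List.length_append, List.length_singleton] at hl
      rw [List.sum_append, List.sum_singleton] at hs
      have H' : Al_in f h S acc S = true := H
      have h2 := Al_in_spec f h S acc S H' a (by omega)
      have h3 := ih (S - a) (a :: acc) h2 l' (by omega) (by omega)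
      rw [List.append_assoc]
      exact h3

private theorem Al_desc (ρ i : ℕ) : ρ * (ρ - 1).descFactorial i = ρ.descFactorial (i + 1) := by
  cases ρ with
  | zero => simp
  | succ ρ => rw [Nat.succ_descFactorial_succ]; rfl

private theorem Al_nxt (Es : List ℕ) : ∀ (Ps : List ℕ) (ρ D : ℕ),
    nxt Es Ps ρ D = ∑ i ∈ range Es.length, D * ρ.descFactorial i * Ps.getD i 0 * Es.getD i 0 := by
  induction Es with
  | nil =>
    intro Ps ρ D
    rfl
  | cons E Es ih =>
    intro Ps ρ D
    have h1 : nxt (E :: Es) Ps ρ D = D * hd Ps * E + frc (D * ρ) fun D' => nxt Es (tl Ps) (ρ - 1) D' := rfl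
    rw [h1, Al_frc, ih, List.length_cons, Finset.sum_range_succ', Al_hd, Nat.descFactorial_zero, mul_one, add_comm]
    congr 1
    refine Finset.sum_congr rfl fun i _ => ?_
    rw [Al_tl, ← Al_desc, List.getD_cons_succ]
    ring

private theorem Al_el_succ (M : ℕ) (Ps : List ℕ) (n : ℕ) : el M Ps (n + 1) = (nxt (el M Ps n) Ps n 1 % M) :: el M Ps n := by
  have h : el M Ps (n + 1) = frc (nxt (el M Ps n) Ps n 1 % M) fun v => v :: el M Ps n := rfl
  rw [h, Al_frc]

private theorem Al_el (M : ℕ) (Ps : List ℕ) (P : ℕ → ZMod M)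
    (hP : ∀ i, i < Ps.length → ((Ps.getD i 0 : ℕ) : ZMod M) = P (i + 1)) (n : ℕ) (hn : n ≤ Ps.length) :
    (el M Ps n).length = n + 1 ∧ ∀ i ≤ n, (((el M Ps n).getD i 0 : ℕ) : ZMod M) = EN P (n - i) := by
  induction n with
  | zero =>
    refine ⟨rfl, fun i hi => ?_⟩
    obtain rfl : i = 0 := by omega
    rw [Nat.sub_zero, EN_zero]
    show ((1 : ℕ) : ZMod M) = 1
    exact Nat.cast_one
  | succ n ih =>
    obtain ⟨h1, h2⟩ := ih (by omega)
    rw [Al_el_succ]
    refine ⟨by rw [List.length_cons, h1], fun i hi => ?_⟩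
    cases i with
    | zero =>
      rw [List.getD_cons_zero, ZMod.natCast_mod, Al_nxt, h1, Nat.sub_zero, EN_succ, Nat.cast_sum]
      refine Finset.sum_congr rfl fun i hi => ?_
      rw [Finset.mem_range] at hi
      rw [Nat.cast_mul, Nat.cast_mul, one_mul, hP i (by omega), h2 i (by omega)]
    | succ i =>
      rw [List.getD_cons_succ, h2 i (by omega), Nat.add_sub_add_right]

theorem el_eq (M : ℕ) (hM : 2 ≤ M) (Ps : List ℕ) (P : ℕ → ZMod M)
    (hP : ∀ i, i < Ps.length → ((Ps.getD i 0 : ℕ) : ZMod M) = P (i + 1)) (n : ℕ) (hn : n ≤ Ps.length) :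
    ((hd (el M Ps n) : ℕ) : ZMod M) = EN P n ∧ hd (el M Ps n) < M := by
  constructor
  · rw [Al_hd]
    exact (Al_el M Ps P hP n hn).2 0 (by omega)
  · cases n with
    | zero =>
      show 1 < M
      omega
    | succ n =>
      rw [Al_el_succ]
      exact Nat.mod_lt _ (by omega)

end TightIndep.FM
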