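import Mathlib

/-!
# FM-Ar: a prime factor of `n` which does not divide `Q`
-/

namespace TightIndep.FM

theorem ar (n Q E : ℕ) (hn : 0 < n) (h : n < 2 ^ E) (hQ : Q ^ E % n ≠ 0) :
    ∃ p, p.Prime ∧ p ∣ n ∧ ¬ p ∣ Q := by
  by_contra hcon
  push Not at hcon
  apply hQ
  apply Nat.mod_eq_zero_of_dvd
  have hE : E ≠ 0 := by
    rintro rfl
    rw [pow_zero] at h
    omega
  by_cases hQ0 : Q = 0
  · rw [hQ0, zero_pow hE]
    exact dvd_zero n
  refine (Nat.factorization_prime_le_iff_dvd hn.ne' (pow_ne_zero E hQ0)).1 fun p hp => ?_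
  by_cases hpn : p ∣ n
  · have h1 : p ^ n.factorization p ≤ n := Nat.ordProj_le p hn.ne'
    have h2 : p ^ n.factorization p < p ^ E := h1.trans_lt (h.trans_le (Nat.pow_le_pow_left hp.two_le E))
    have h3 : n.factorization p < E := (Nat.pow_lt_pow_iff_right hp.one_lt).1 h2
    have h4 : 1 ≤ Q.factorization p := (Nat.Prime.dvd_iff_one_le_factorization hp hQ0).1 (hcon p hp hpn)
    rw [Nat.factorization_pow, Finsupp.smul_apply, smul_eq_mul]
    nlinarith
  · rw [Nat.factorization_eq_zero_of_not_dvd hpn]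
    exact Nat.zero_le _

theorem surj_of_ne {G : Type} [AddCommGroup G] (p : ℕ) [Fact p.Prime] (φ : G →+ ZMod p)
    (h : φ ≠ 0) : Function.Surjective φ := by
  obtain ⟨g, hg⟩ : ∃ g, φ g ≠ 0 := by
    by_contra hcon
    push Not at hcon
    exact h (AddMonoidHom.ext hcon)
  intro x
  refine ⟨(x * (φ g)⁻¹).val • g, ?_⟩
  rw [map_nsmul, nsmul_eq_mul, ZMod.natCast_zmod_val, mul_assoc, inv_mul_cancel₀ hg, mul_one]

end TightIndep.FM
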