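import Pool.Agent.Lib.MP_f31b39_co.FM.CkD

/-!
# FM-Bf: the fast evaluation of `bound`
-/

namespace TightIndep.FM

open Finset

private theorem frc_eq {α : Type} (x : ℕ) (f : ℕ → α) : frc x f = f x := by
  cases x <;> rfl

private theorem bfE_succ (m r k i T : ℕ) : bfE m r (k + 1) i T =
    T + bfE m r k (i + 1) (T * (2 * ((m - i) * (r - i))) / ((i + 1) * (i + 1))) := by
  change T + frc _ _ = _
  rw [frc_eq]
  rfl

private theorem bfO_succ (m s k i T : ℕ) : bfO m s (k + 1) i T =
    T + bfO m s k (i + 1) (T * (2 * ((m - i) * (s - i))) / (i * (i + 1))) := by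
  change T + frc _ _ = _
  rw [frc_eq]
  rfl

private theorem stepE (m r i : ℕ) : m.choose i * r.choose i * 2 ^ i * (2 * ((m - i) * (r - i))) =
    m.choose (i + 1) * r.choose (i + 1) * 2 ^ (i + 1) * ((i + 1) * (i + 1)) := by
  have h1 := Nat.choose_succ_right_eq m i
  have h2 := Nat.choose_succ_right_eq r i
  calc m.choose i * r.choose i * 2 ^ i * (2 * ((m - i) * (r - i)))
      = (m.choose i * (m - i)) * (r.choose i * (r - i)) * (2 ^ i * 2) := by ring
    _ = (m.choose (i + 1) * (i + 1)) * (r.choose (i + 1) * (i + 1)) * (2 ^ i * 2) := by rw [h1, h2]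
    _ = _ := by ring

private theorem stepO (m s i : ℕ) (hm : 1 ≤ m) (hi : 1 ≤ i) :
    (m - 1).choose (i - 1) * s.choose i * 2 ^ i * (2 * ((m - i) * (s - i))) =
    (m - 1).choose (i + 1 - 1) * s.choose (i + 1) * 2 ^ (i + 1) * (i * (i + 1)) := by
  obtain ⟨m, rfl⟩ := Nat.exists_eq_add_of_le' hm
  obtain ⟨i, rfl⟩ := Nat.exists_eq_add_of_le' hi
  have h1 := Nat.choose_succ_right_eq m i
  have h2 := Nat.choose_succ_right_eq s (i + 1)
  rw [Nat.add_sub_cancel, Nat.add_sub_cancel, Nat.add_sub_cancel, Nat.add_sub_add_right]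
  calc m.choose i * s.choose (i + 1) * 2 ^ (i + 1) * (2 * ((m - i) * (s - (i + 1))))
      = (m.choose i * (m - i)) * (s.choose (i + 1) * (s - (i + 1))) * (2 ^ (i + 1) * 2) := by ring
    _ = (m.choose (i + 1) * (i + 1)) * (s.choose (i + 1 + 1) * (i + 1 + 1)) * (2 ^ (i + 1) * 2) := by
        rw [h1, h2]
    _ = _ := by ring

private theorem bfE_sum (m r k : ℕ) : ∀ i, bfE m r k i (m.choose i * r.choose i * 2 ^ i) =
    ∑ j ∈ range k, m.choose (i + j) * r.choose (i + j) * 2 ^ (i + j) := by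
  induction k with
  | zero => exact fun i => rfl
  | succ k ih =>
    intro i
    rw [bfE_succ, Nat.div_eq_of_eq_mul_left (by positivity) (stepE m r i), ih, sum_range_succ',
      Nat.add_zero, Nat.add_comm]
    congr 1
    refine sum_congr rfl fun j _ => ?_
    rw [show i + 1 + j = i + (j + 1) by omega]

private theorem bfO_sum (m s k : ℕ) (hm : 1 ≤ m) : ∀ i, 1 ≤ i →
    bfO m s k i ((m - 1).choose (i - 1) * s.choose i * 2 ^ i) =
    ∑ j ∈ range k, (m - 1).choose (i + j - 1) * s.choose (i + j) * 2 ^ (i + j) := by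
  induction k with
  | zero => exact fun i _ => rfl
  | succ k ih =>
    intro i hi
    rw [bfO_succ, Nat.div_eq_of_eq_mul_left (by positivity) (stepO m s i hm hi), ih (i + 1) (by omega),
      sum_range_succ', Nat.add_zero, Nat.add_comm]
    congr 1
    refine sum_congr rfl fun j _ => ?_
    rw [show i + 1 + j = i + (j + 1) by omega]

theorem bf_eq (m r p : ℕ) (hm : 1 ≤ m) (hp : p ≤ 1) : bf m r p = bound m (2 * r + p) := by
  have hp' : p = 0 ∨ p = 1 := by omega
  rcases hp' with rfl | rfl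
  · have h1 : bf m r 0 = bfE m r (r + 1) 0 (m.choose 0 * r.choose 0 * 2 ^ 0) := by
      rw [Nat.choose_zero_right, Nat.choose_zero_right]
      rfl
    rw [h1, bfE_sum, bound, if_pos (by rw [Nat.add_zero]; exact even_two_mul r),
      show (2 * r + 0) / 2 = r by omega]
    simp only [Nat.zero_add]
    have h2 : ∑ j ∈ range (r + 1), m.choose j * r.choose j * 2 ^ j =
        ∑ j ∈ range (m + r + 1), m.choose j * r.choose j * 2 ^ j := by
      refine sum_subset (range_subset_range.2 (by omega)) fun j _ hj => ?_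
      rw [mem_range, not_lt] at hj
      rw [Nat.choose_eq_zero_of_lt (show r < j by omega), Nat.mul_zero, Nat.zero_mul]
    have h3 : ∑ j ∈ range (m + 1), m.choose j * r.choose j * 2 ^ j =
        ∑ j ∈ range (m + r + 1), m.choose j * r.choose j * 2 ^ j := by
      refine sum_subset (range_subset_range.2 (by omega)) fun j _ hj => ?_
      rw [mem_range, not_lt] at hj
      rw [Nat.choose_eq_zero_of_lt (show m < j by omega), Nat.zero_mul, Nat.zero_mul]
    rw [h2, h3]
  · have h1 : bf m r 1 = bfO m (r + 1) (r + 1) 1 ((m - 1).choose (1 - 1) * (r + 1).choose 1 * 2 ^ 1) := by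
      rw [Nat.sub_self, Nat.choose_zero_right, Nat.choose_one_right, Nat.one_mul, pow_one,
        Nat.mul_comm (r + 1) 2]
      rfl
    have ho : ¬ Even (2 * r + 1) := by
      rw [Nat.not_even_iff_odd]
      exact odd_two_mul_add_one r
    rw [h1, bfO_sum m (r + 1) (r + 1) hm 1 le_rfl, bound, if_neg ho,
      show (2 * r + 1 + 1) / 2 = r + 1 by omega]
    have h4 : ∑ j ∈ range (r + 1), (m - 1).choose (1 + j - 1) * (r + 1).choose (1 + j) * 2 ^ (1 + j) =
        ∑ i ∈ Icc 1 (r + 1), (m - 1).choose (i - 1) * (r + 1).choose i * 2 ^ i := by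
      rw [show Icc 1 (r + 1) = Ico 1 (r + 1 + 1) by ext j; simp only [mem_Icc, mem_Ico]; omega,
        sum_Ico_eq_sum_range, Nat.add_sub_cancel]
    rw [h4]
    have h2 : ∑ i ∈ Icc 1 (r + 1), (m - 1).choose (i - 1) * (r + 1).choose i * 2 ^ i =
        ∑ i ∈ Icc 1 (m + r + 1), (m - 1).choose (i - 1) * (r + 1).choose i * 2 ^ i := by
      refine sum_subset (Icc_subset_Icc le_rfl (by omega)) fun j hj1 hj => ?_
      rw [mem_Icc] at hj hj1
      rw [Nat.choose_eq_zero_of_lt (show r + 1 < j by omega), Nat.mul_zero, Nat.zero_mul]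
    have h3 : ∑ i ∈ Icc 1 m, (m - 1).choose (i - 1) * (r + 1).choose i * 2 ^ i =
        ∑ i ∈ Icc 1 (m + r + 1), (m - 1).choose (i - 1) * (r + 1).choose i * 2 ^ i := by
      refine sum_subset (Icc_subset_Icc le_rfl (by omega)) fun j hj1 hj => ?_
      rw [mem_Icc] at hj hj1
      rw [Nat.choose_eq_zero_of_lt (show m - 1 < j - 1 by omega), Nat.zero_mul, Nat.zero_mul]
    rw [h2, h3]

end TightIndep.FM
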