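import Pool.Agent.Lib.MP_f31b39_co.FM.Ind
import Pool.Agent.Lib.MP_f31b39_co.SX.Nw

/-!
# FM-Big: large primes
-/

namespace TightIndep.FM

open Finset

theorem big {p : ℕ} [Fact p.Prime] (N e r : ℕ) (T : ZMod p → ℕ) (hT : Cl p N e r T)
    (hp : 2 * N + e + 2 ≤ p) (hp2 : 3 ≤ p)
    (hL : ∀ j, 2 * j + 2 ≤ 2 * N + e → ¬ p ∣ LL N e (2 * j + 1) r) : False := by
  classical
  have hps : ∀ k, 1 ≤ k → k ≤ 2 * N + e → SX.ps T k = 0 := by
    intro k
    induction k using Nat.strong_induction_on with
    | _ k ih =>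
      intro hk1 hk2
      rcases Nat.even_or_odd k with hev | hodd
      · obtain ⟨j, hj⟩ : ∃ j, k = 2 * j + 2 := ⟨k / 2 - 1, by obtain ⟨a, ha⟩ := hev; omega⟩
        subst hj
        have h1 := ind N e r T hT (2 * j + 1) (by omega)
          (fun i hi1 hi2 => ih i (by omega) hi1 (by omega))
        have h2 : (LL N e (2 * j + 1) r : ZMod p) ≠ 0 := by
          intro h3
          exact hL j (by omega) ((ZMod.natCast_eq_zero_iff _ _).1 h3)
        exact (mul_eq_zero.1 h1).resolve_right h2
      · have h1 : SX.ps T k = - SX.ps T k := by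
          unfold SX.ps
          rw [← Finset.sum_neg_distrib, ← Equiv.sum_comp (Equiv.neg (ZMod p))]
          refine Finset.sum_congr rfl fun c _ => ?_
          rw [Equiv.neg_apply, hT.symm, hodd.neg_pow, mul_neg]
        have h2 : (2 : ZMod p) ≠ 0 := by
          intro h3
          have h4 : ((2 : ℕ) : ZMod p) = 0 := by exact_mod_cast h3
          have h5 := (ZMod.natCast_eq_zero_iff _ _).1 h4
          have := Nat.le_of_dvd (by norm_num) h5
          omega
        have h3 : 2 * SX.ps T k = 0 := by linear_combination h1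
        exact (mul_eq_zero.1 h3).resolve_left h2
  have hcnt : (univ.filter fun c : ZMod p => c ≠ 0 ∧ T c ≠ 0).card ≤ 2 * N + e := by
    rw [← hT.sum, Finset.card_eq_sum_ones]
    refine (Finset.sum_le_sum (f := fun _ => 1) (g := T) fun c hc => ?_).trans
      (Finset.sum_le_sum_of_subset (Finset.filter_subset _ _))
    have := (Finset.mem_filter.1 hc).2.2
    omega
  have h0 := SX.nw T hps hcnt
  obtain ⟨c, hc1, hc2⟩ := hT.gen p Fact.out dvd_rfl
  have hc0 : c ≠ 0 := by
    rintro rfl
    exact hc2 (by rw [ZMod.val_zero]; exact dvd_zero _)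
  have h1 := (ZMod.natCast_eq_zero_iff _ _).1 (h0 c hc0)
  have h2 : T c ≤ 2 * N + e := by
    rw [← hT.sum]
    exact Finset.single_le_sum (fun _ _ => Nat.zero_le _) (mem_univ c)
  have h3 := Nat.le_of_dvd (Nat.pos_of_ne_zero hc1) h1
  omega

end TightIndep.FM
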