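import Pool.Agent.Lib.MP_f31b39_co.FM.CkD

/-!
# FM-Bk: the meaning of `blk`
-/

namespace TightIndep.FM

private theorem Bk_frc {α : Type} (x : ℕ) (f : ℕ → α) : frc x f = f x := by
  cases x <;> rfl

private theorem Bk_band {b x : Bool} (h : band b x = true) : b = true ∧ x = true := by
  cases b with
  | false => exact absurd (show (false : Bool) = true from h) (by decide)
  | true => exact ⟨rfl, h⟩

private theorem Bk_bor {b x : Bool} (h : bor b x = true) : b = true ∨ x = true := by
  cases b with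
  | false => exact Or.inr h
  | true => exact Or.inl rfl

private theorem Bk_row {a k : ℕ} (h : blk a k = true) : ∀ m, a ≤ m → m < a + k → row m 30 = true := by
  induction k with
  | zero => intro m h1 h2; omega
  | succ k ih =>
    have h3 : band (frc (a + k) fun m => row m 30) (blk a k) = true := h
    obtain ⟨h4, h5⟩ := Bk_band h3
    rw [Bk_frc] at h4
    intro m h1 h2
    rcases Nat.lt_or_ge m (a + k) with h6 | h6
    · exact ih h5 m h1 h6
    · have h7 : m = a + k := by omega
      rw [h7]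
      exact h4

private theorem Bk_ok {m k : ℕ} (h : row m k = true) :
    ∀ r, 4 ≤ r → r < 4 + k → ok m r 0 = true ∧ ok m r 1 = true := by
  induction k with
  | zero => intro r h1 h2; omega
  | succ k ih =>
    have h3 : band (frc (k + 4) fun r => band (ok m r 0) (ok m r 1)) (row m k) = true := h
    obtain ⟨h4, h5⟩ := Bk_band h3
    rw [Bk_frc] at h4
    intro r h1 h2
    rcases Nat.lt_or_ge r (4 + k) with h6 | h6
    · exact ih h5 r h1 h6
    · have h7 : r = k + 4 := by omega
      rw [h7]
      exact Bk_band h4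

private theorem Bk_exc (c : ℕ) (L : List ℕ)
    (h : @List.rec ℕ (fun _ => Bool) false (fun h _ ih => bor (Nat.beq c h) ih) L = true) : c ∈ L := by
  induction L with
  | nil => exact absurd (show (false : Bool) = true from h) (by decide)
  | cons a L ih =>
    rcases Bk_bor h with h1 | h1
    · rw [Nat.eq_of_beq_eq_true h1]
      exact List.mem_cons_self
    · exact List.mem_cons_of_mem _ (ih h1)

private theorem Bk_cases {m r p : ℕ} (h : ok m r p = true) :
    2 * m + 6 ≤ 2 * r + p ∨ (32 ≤ m ∧ 16 * m ≤ (2 * r + p + 1) * (2 * r + p + 1)) ∨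
      256 * m + (2 * r + p) ∈
        [1033, 1804, 2069, 3594, 5897, 5899, 6159, 7688, 9227, 13323, 15114, 21259, 22793] ∨
      fast m r p = true := by
  unfold ok at h
  rw [Bk_frc] at h
  rcases Bk_bor h with h1 | h1
  · exact Or.inl (Nat.le_of_ble_eq_true h1)
  rcases Bk_bor h1 with h2 | h2
  · obtain ⟨h3, h4⟩ := Bk_band h2
    exact Or.inr (Or.inl ⟨Nat.le_of_ble_eq_true h3, Nat.le_of_ble_eq_true h4⟩)
  rcases Bk_bor h2 with h3 | h3
  · exact Or.inr (Or.inr (Or.inl (Bk_exc _ _ h3)))
  · exact Or.inr (Or.inr (Or.inr h3))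

theorem blk_spec (a k : ℕ) (h : blk a k = true) (m r p : ℕ) (h1 : a ≤ m) (h2 : m < a + k) (hr : 4 ≤ r)
    (hr2 : r ≤ 33) (hp : p ≤ 1) (ht : 2 * r + p ≤ 2 * m + 5) (hs : 32 ≤ m → (2 * r + p + 1) ^ 2 < 16 * m) :
    fast m r p = true ∨ 256 * m + (2 * r + p) ∈
      [1033, 1804, 2069, 3594, 5897, 5899, 6159, 7688, 9227, 13323, 15114, 21259, 22793] := by
  obtain ⟨h3, h4⟩ := Bk_ok (Bk_row h m h1 h2) r hr (by omega)
  have h5 : ok m r p = true := by
    rcases Nat.le_one_iff_eq_zero_or_eq_one.1 hp with h6 | h6 <;> rw [h6] <;> assumption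
  rcases Bk_cases h5 with h6 | ⟨h6, h7⟩ | h6 | h6
  · omega
  · have h8 := hs h6
    rw [sq] at h8
    exact absurd h7 (not_le.2 h8)
  · exact Or.inr h6
  · exact Or.inl h6

end TightIndep.FM
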