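import Pool.Agent.Lib.MP_f31b39_co.FM.Defs
import Pool.Agent.Lib.MP_f31b39_co.T8.Eq
import Pool.Agent.Lib.MP_f31b39_co.AS.Newton

/-!
# FM-Ev: the equation of a character, `t` even, and the images of the elements generate
-/

namespace TightIndep.FM

open Finset

private theorem Ev_mon {G : Type} [AddCommGroup G] {m : ℕ} (a : Fin m → G) (χ : AddChar G ℂ)
    (v : Fin m → ℤ) : mon (fun i => χ (a i)) v = χ (∑ i, v i • a i) := by
  unfold mon
  rw [addChar_map_sum]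
  refine prod_congr rfl fun i _ => ?_
  rw [AddChar.map_zsmul_eq_zpow]

private theorem Ev_ball {G : Type} [AddCommGroup G] [Fintype G] {m : ℕ} (r : ℕ) (a : Fin m → G)
    (h : ∀ v ∈ rel a, v ≠ 0 → 2 * r + 1 ≤ nrm v) (hG : Fintype.card G = bound m (2 * r)) :
    (∀ g : G, ∃ u ∈ ball m r, ∑ i, u i • a i = g) ∧
      ∀ f : G → ℂ, ∑ u ∈ ball m r, f (∑ i, u i • a i) = ∑ g, f g := by
  apply sum_image_fam (2 * r) a h
  · intro u hu u' hu'
    rw [mem_ball] at hu hu'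
    have := nrm_sub_le u u'
    omega
  · rw [card_ball, hG, bound_even]

private theorem Ev_dball {G : Type} [AddCommGroup G] [Fintype G] {m : ℕ} (e : ℕ)
    (a : Fin (m + 1) → G)
    (h : ∀ v ∈ rel a, v ≠ 0 → 2 * e + 2 ≤ nrm v) (hG : Fintype.card G = bound (m + 1) (2 * e + 1))
    (g : G) : ∃ u ∈ dball (e + 1) ((0, true) : Fin (m + 1) × Bool), ∑ i, u i • a i = g := by
  refine (sum_image_fam (2 * e + 1) a h (dball (e + 1) ((0, true) : Fin (m + 1) × Bool)) ?_ ?_).1 g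
  · intro u hu u' hu'
    rw [mem_dball] at hu hu'
    have h3 := nrm_sub_le u u'
    have h4 := nrm_sub_le (u + ud (0, true)) (u' + ud (0, true))
    rw [add_sub_add_right_eq_sub] at h4
    have h5 : nrm (u' + ud (0, true) - ud (0, true)) ≤ nrm (u' + ud (0, true)) + nrm (ud (0, true)) :=
      nrm_sub_le _ _
    have h6 : nrm (u + ud (0, true) - ud (0, true)) ≤ nrm (u + ud (0, true)) + nrm (ud (0, true)) :=
      nrm_sub_le _ _
    rw [add_sub_cancel_right, nrm_ud] at h5 h6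
    omega
  · rw [hG, card_dball, show 2 * e + 1 = 2 * (e + 1) - 1 by omega, ← bound_odd m (e + 1) (by omega)]

theorem even_eq {G : Type} [AddCommGroup G] [Fintype G] {m : ℕ} (r : ℕ) (a : Fin m → G)
    (h : ∀ v ∈ rel a, v ≠ 0 → 2 * r + 1 ≤ nrm v) (hG : Fintype.card G = bound m (2 * r))
    (χ : AddChar G ℂ) (hχ : χ ≠ 1) :
    cc (pw m fun k => 1 + ∑ i, (χ (a i) ^ k + (χ (a i))⁻¹ ^ k)) r = 0 := by
  have hx : ∀ i, χ (a i) ≠ 0 := fun i => T8.char_ne_zero χ _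
  have hsum : ∑ v ∈ ball m r, mon (fun i => χ (a i)) v = 0 := by
    rw [← AddChar.sum_eq_zero_of_ne_one hχ, ← (Ev_ball r a h hG).2 (fun g => χ g)]
    exact sum_congr rfl fun v _ => Ev_mon a χ v
  rw [← newton_even (fun i => χ (a i)) hx r, ← sum_ball, hsum]

theorem odd_eq' {G : Type} [AddCommGroup G] [Fintype G] {m : ℕ} (r : ℕ) (a : Fin (m + 1) → G)
    (h : ∀ v ∈ rel a, v ≠ 0 → 2 * r + 2 ≤ nrm v) (hG : Fintype.card G = bound (m + 1) (2 * r + 1))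
    (χ : AddChar G ℂ) (hχ : ∃ g, χ g ^ 2 ≠ 1) :
    cc (pw m fun k => ∑ i, (χ (a i) ^ k + (χ (a i))⁻¹ ^ k)) r = 0 := by
  have hx : ∀ i, χ (a i) ≠ 0 := fun i => T8.char_ne_zero χ _
  rw [← newton_odd (fun i => χ (a i)) hx r]
  exact T8.odd_eq r a h hG χ hχ

private theorem Ev_span {G : Type} [AddCommGroup G] [Fintype G] (t : ℕ) {m : ℕ} (hm : 1 ≤ m)
    (a : Fin m → G) (h : ∀ v ∈ rel a, v ≠ 0 → t + 1 ≤ nrm v) (hG : Fintype.card G = bound m t)
    (g : G) : ∃ u : Fin m → ℤ, ∑ i, u i • a i = g := by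
  rcases Nat.even_or_odd' t with ⟨r, rfl | rfl⟩
  · obtain ⟨u, -, hu⟩ := (Ev_ball r a h hG).1 g
    exact ⟨u, hu⟩
  · obtain ⟨m, rfl⟩ : ∃ k, m = k + 1 := ⟨m - 1, by omega⟩
    obtain ⟨u, -, hu⟩ := Ev_dball r a h hG g
    exact ⟨u, hu⟩

theorem gen {G : Type} [AddCommGroup G] [Fintype G] (t : ℕ) (ht : 1 ≤ t) {m : ℕ} (hm : 1 ≤ m)
    (a : Fin m → G) (h : ∀ v ∈ rel a, v ≠ 0 → t + 1 ≤ nrm v) (hG : Fintype.card G = bound m t)
    (d : ℕ) [NeZero d] (φ : G →+ ZMod d) (hφ : Function.Surjective φ) (q : ℕ) (hq : q.Prime)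
    (hqd : q ∣ d) : ∃ i, ¬ q ∣ (φ (a i)).val := by
  by_contra hno
  push Not at hno
  have : Fact q.Prime := ⟨hq⟩
  obtain ⟨ψ, hψ⟩ : ∃ ψ : G →+ ZMod q, ψ = (ZMod.castHom hqd (ZMod q)).toAddMonoidHom.comp φ := ⟨_, rfl⟩
  have hψa : ∀ i, ψ (a i) = 0 := by
    intro i
    rw [hψ]
    show ZMod.castHom hqd (ZMod q) (φ (a i)) = 0
    rw [ZMod.castHom_apply, ZMod.cast_eq_val, ZMod.natCast_eq_zero_iff]
    exact hno i
  have hψ0 : ∀ g, ψ g = 0 := by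
    intro g
    obtain ⟨u, hu⟩ := Ev_span t hm a h hG g
    rw [← hu, map_sum]
    simp only [map_zsmul, hψa, smul_zero, Finset.sum_const_zero]
  obtain ⟨g, hg⟩ := hφ 1
  have h1 := hψ0 g
  rw [hψ] at h1
  have h2 : ZMod.castHom hqd (ZMod q) (φ g) = 0 := h1
  rw [hg, map_one] at h2
  exact one_ne_zero h2

end TightIndep.FM
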