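import Pool.Agent.Lib.MP_f31b39_co.FM.Tr
import Pool.Agent.Lib.MP_f31b39_co.FM.Ev

/-!
# FM-Ch: the class numbers of a tight family
-/

namespace TightIndep.FM

open Finset

/-- the number of `i` with `b i = c`, plus the number of `i` with `b i = -c`, plus `e` at `0` -/
private def ct {d m : ℕ} (b : Fin m → ZMod d) (e : ℕ) (c : ZMod d) : ℕ :=
  ∑ i, ((if b i = c then 1 else 0) + (if -b i = c then 1 else 0)) + if 0 = c then e else 0

private theorem ct_fib {d m : ℕ} [NeZero d] (b : Fin m → ZMod d) (e : ℕ) (R : Type) [CommSemiring R] (F : ZMod d → R) :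
    ∑ c, (ct b e c : R) * F c = ∑ i, (F (b i) + F (-b i)) + (e : R) * F 0 := by
  have h1 : ∀ c : ZMod d, (ct b e c : R) * F c =
      ∑ i, ((if b i = c then F c else 0) + (if -b i = c then F c else 0)) + if 0 = c then (e : R) * F c else 0 := by
    intro c
    unfold ct
    push_cast
    rw [add_mul, sum_mul]
    congr 1
    · refine sum_congr rfl fun i _ => ?_
      rw [add_mul, ite_mul, ite_mul, one_mul, zero_mul]
    · rw [ite_mul, zero_mul]
  rw [sum_congr rfl fun c _ => h1 c, sum_add_distrib, sum_comm]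
  congr 1
  · refine sum_congr rfl fun i _ => ?_
    rw [sum_add_distrib, sum_ite_eq, sum_ite_eq, if_pos (mem_univ _), if_pos (mem_univ _)]
  · rw [sum_ite_eq, if_pos (mem_univ _)]

private theorem ct_symm {d m : ℕ} (b : Fin m → ZMod d) (e : ℕ) (c : ZMod d) : ct b e (-c) = ct b e c := by
  unfold ct
  congr 1
  · refine sum_congr rfl fun i _ => ?_
    have h1 : b i = -c ↔ -b i = c := ⟨fun h => by rw [h, neg_neg], fun h => by rw [← h, neg_neg]⟩
    rw [add_comm]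
    exact congrArg₂ (· + ·) (if_congr neg_inj rfl rfl) (if_congr h1 rfl rfl)
  · exact if_congr ⟨fun h => by rw [← neg_neg c, ← h, neg_zero], fun h => by rw [← h, neg_zero]⟩ rfl rfl

private theorem ct_sum {d m : ℕ} [NeZero d] (b : Fin m → ZMod d) (e : ℕ) : ∑ c, ct b e c = 2 * m + e := by
  have h1 := ct_fib b e ℕ fun _ => 1
  simp only [mul_one, Nat.cast_id, sum_const, card_univ, Fintype.card_fin, smul_eq_mul] at h1
  rw [h1]
  ring

private theorem ct_ne {d m : ℕ} (b : Fin m → ZMod d) (e : ℕ) (i : Fin m) : ct b e (b i) ≠ 0 := by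
  unfold ct
  have h1 : (if b i = b i then 1 else 0) + (if -b i = b i then 1 else 0) ≤
      ∑ j, ((if b j = b i then 1 else 0) + (if -b j = b i then 1 else 0)) :=
    single_le_sum (f := fun j => (if b j = b i then 1 else 0) + (if -b j = b i then 1 else 0))
      (fun _ _ => Nat.zero_le _) (mem_univ i)
  rw [if_pos rfl] at h1
  omega

theorem cl {G : Type} [AddCommGroup G] [Fintype G] (t : ℕ) (ht : 1 ≤ t) {m : ℕ} (hm : 1 ≤ m)
    (a : Fin m → G) (h : ∀ v ∈ rel a, v ≠ 0 → t + 1 ≤ nrm v) (hG : Fintype.card G = bound m t)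
    (d : ℕ) [NeZero d] (hd : 3 ≤ d) (φ : G →+ ZMod d) (hφ : Function.Surjective φ) :
    ∃ T : ZMod d → ℕ, Cl d (m - t % 2) (1 + t % 2) (t / 2) T := by
  have hd0 : 0 < d := by omega
  have hp1 : Fact (1 < d) := ⟨by omega⟩
  obtain ⟨ζ, hζ⟩ : ∃ ζ : ℂ, IsPrimitiveRoot ζ d := ⟨_, Complex.isPrimitiveRoot_exp d hd0.ne'⟩
  obtain ⟨χ, hχ⟩ : ∃ χ : AddChar G ℂ, χ = (AddChar.zmodChar d hζ.pow_eq_one).compAddMonoidHom φ := ⟨_, rfl⟩
  have hchi : ∀ g, χ g = ζ ^ (φ g).val := by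
    intro g
    rw [hχ, AddChar.compAddMonoidHom_apply, AddChar.zmodChar_apply]
  obtain ⟨g, hg⟩ := hφ 1
  have hne : χ g ^ 2 ≠ 1 := by
    rw [hchi, hg, ZMod.val_one, pow_one]
    exact hζ.pow_ne_one_of_pos_of_lt two_ne_zero (by omega)
  have hne1 : χ ≠ 1 := by
    intro h1
    apply hne
    rw [h1]
    simp
  have hinv : ∀ g, ζ ^ (-φ g).val = (χ g)⁻¹ := by
    intro g
    rw [← AddChar.map_neg_eq_inv, hchi, map_neg]
  have hpow : ∀ e l : ℕ, ∑ c, (ct (fun i => φ (a i)) e c : ℂ) * ζ ^ (l * c.val) =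
      ∑ i, (χ (a i) ^ l + (χ (a i))⁻¹ ^ l) + (e : ℂ) := by
    intro e l
    rw [ct_fib (fun i => φ (a i)) e ℂ fun c => ζ ^ (l * c.val), ZMod.val_zero, mul_zero, pow_zero, mul_one]
    congr 1
    refine sum_congr rfl fun i _ => ?_
    rw [mul_comm l, pow_mul, mul_comm l, pow_mul, hinv, ← hchi]
  have hgen : ∀ e : ℕ, ∀ q : ℕ, q.Prime → q ∣ d → ∃ c : ZMod d, ct (fun i => φ (a i)) e c ≠ 0 ∧ ¬ q ∣ c.val := by
    intro e q hq hqd
    obtain ⟨i, hi⟩ := gen t ht hm a h hG d φ hφ q hq hqd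
    exact ⟨φ (a i), ct_ne (fun i => φ (a i)) e i, hi⟩
  rcases Nat.even_or_odd' t with ⟨r, rfl | rfl⟩
  · rw [Nat.mul_mod_right, Nat.sub_zero, Nat.add_zero, Nat.mul_div_cancel_left r (by norm_num : 0 < 2)]
    refine ⟨ct (fun i => φ (a i)) 1, ct_symm _ _, ct_sum _ _, hgen 1, ?_⟩
    intro R _ z hz
    refine tr m r _ ζ hζ ?_ R z hz
    rw [← even_eq r a h hG χ hne1]
    congr 2
    funext l
    rw [hpow, add_comm, Nat.cast_one]
  · rw [show (2 * r + 1) % 2 = 1 by omega, show (2 * r + 1) / 2 = r by omega]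
    obtain ⟨m', rfl⟩ : ∃ m', m = m' + 1 := ⟨m - 1, by omega⟩
    rw [Nat.add_sub_cancel]
    refine ⟨ct (fun i => φ (a i)) 0, ct_symm _ _, ?_, hgen 0, ?_⟩
    · rw [ct_sum]
      ring
    · intro R _ z hz
      refine tr m' r _ ζ hζ ?_ R z hz
      rw [← odd_eq' r a h hG χ ⟨g, hne⟩]
      congr 2
      funext l
      rw [hpow, Nat.cast_zero, add_zero]

end TightIndep.FM
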