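import Pool.Agent.Lib.MP_f31b39_co.FM.Defs

/-!
# FM-CkD: the kernel checker, definitions
-/

namespace TightIndep.FM

/-- forcing the evaluation of a natural number -/
noncomputable def frc {α : Type} (x : ℕ) (f : ℕ → α) : α :=
  @Nat.rec (fun _ => α) (f (nat_lit 0)) (fun n _ => f (Nat.succ n)) x

/-- conjunction -/
noncomputable def band (b x : Bool) : Bool := @Bool.rec (fun _ => Bool) false x b

/-- disjunction -/
noncomputable def bor (b x : Bool) : Bool := @Bool.rec (fun _ => Bool) x true b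

/-- the head -/
noncomputable def hd (L : List ℕ) : ℕ := @List.rec ℕ (fun _ => ℕ) (nat_lit 0) (fun a _ _ => a) L

/-- the tail -/
noncomputable def tl (L : List ℕ) : List ℕ := @List.rec ℕ (fun _ => List ℕ) [] (fun _ L _ => L) L

/-- the list `[xx n, ..., xx 1, xx 0]` (`s = 2 N + e`) -/
noncomputable def xl (s e : ℕ) : ℕ → List ℕ :=
  @Nat.rec (fun _ => List ℕ) [nat_lit 1] fun n ih =>
    frc (Nat.add (Nat.mul s (hd ih)) (Nat.mul (Nat.mul n (Nat.sub (Nat.add n e) (nat_lit 1))) (hd (tl ih))))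
      fun v => List.cons v ih

/-- the weights `r.descFactorial l * xx (r - l)` modulo `n`, `l = 1, ..., r`, from the list of the `xx` -/
noncomputable def wl (n : ℕ) (L : List ℕ) : ℕ → ℕ → List ℕ :=
  @List.rec ℕ (fun _ => ℕ → ℕ → List ℕ) (fun _ _ => []) (fun a _ ih ρ D =>
    frc (Nat.mul D ρ) fun D' => frc (Nat.mod (Nat.mul D' a) n) fun v =>
      List.cons v (ih (Nat.sub ρ (nat_lit 1)) D')) L

/-- `∑ l ^ k * w_l` -/
noncomputable def ev (k : ℕ) (ws : List ℕ) : ℕ → ℕ :=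
  @List.rec ℕ (fun _ => ℕ → ℕ) (fun _ => nat_lit 0)
    (fun w _ ih l => Nat.add (Nat.mul (Nat.pow l k) w) (ih (Nat.succ l))) ws

/-- the product of the resonance factors modulo `n` -/
noncomputable def qq (n : ℕ) (ws : List ℕ) (Q : ℕ) : ℕ → ℕ :=
  @Nat.rec (fun _ => ℕ) Q fun j ih =>
    Nat.mod (Nat.mul ih (ev (Nat.succ (Nat.mul (nat_lit 2) j)) ws (nat_lit 1))) n

/-- the factorial -/
noncomputable def fac : ℕ → ℕ := @Nat.rec (fun _ => ℕ) (nat_lit 1) fun k ih => Nat.mul (Nat.succ k) ih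

/-- `∑_{i ≤ j < i + k} T_j` for the terms `T_(j+1) = T_j * 2 (m-j) (r-j) / (j+1)^2` of `bound`, `t` even -/
noncomputable def bfE (m r : ℕ) : ℕ → ℕ → ℕ → ℕ :=
  @Nat.rec (fun _ => ℕ → ℕ → ℕ) (fun _ _ => nat_lit 0) fun _ ih i T =>
    Nat.add T (frc (Nat.div (Nat.mul T (Nat.mul (nat_lit 2) (Nat.mul (Nat.sub m i) (Nat.sub r i))))
      (Nat.mul (Nat.succ i) (Nat.succ i))) fun T' => ih (Nat.succ i) T')

/-- the same for `t` odd, `U_(j+1) = U_j * 2 (m-j) (s-j) / (j (j+1))`, `j ≥ 1` -/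
noncomputable def bfO (m s : ℕ) : ℕ → ℕ → ℕ → ℕ :=
  @Nat.rec (fun _ => ℕ → ℕ → ℕ) (fun _ _ => nat_lit 0) fun _ ih i T =>
    Nat.add T (frc (Nat.div (Nat.mul T (Nat.mul (nat_lit 2) (Nat.mul (Nat.sub m i) (Nat.sub s i))))
      (Nat.mul i (Nat.succ i))) fun T' => ih (Nat.succ i) T')

/-- `bound m t`, `t = 2 r + p` -/
noncomputable def bf (m r p : ℕ) : ℕ :=
  @Nat.rec (fun _ => ℕ) (bfE m r (Nat.succ r) (nat_lit 0) (nat_lit 1))
    (fun _ _ => bfO m (Nat.succ r) (Nat.succ r) (nat_lit 1) (Nat.mul (nat_lit 2) (Nat.succ r))) p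

/-- the check of the pair `(m, 2 r + p)` -/
noncomputable def fast (m r p : ℕ) : Bool :=
  frc (bf m r p) fun n =>
    band (Nat.ble (Nat.succ n) (Nat.pow (nat_lit 2) (nat_lit 256)))
      (Nat.ble (nat_lit 1) (Nat.mod (Nat.pow (qq n
        (wl n (xl (Nat.add (Nat.mul (nat_lit 2) (Nat.sub m p)) (Nat.succ p)) (Nat.succ p) (Nat.sub r (nat_lit 1)))
          r (nat_lit 1))
        (fac (Nat.add (Nat.mul (nat_lit 2) m) (nat_lit 2))) m) (nat_lit 256)) n))

/-- the pairs which are treated by small primes: `256 m + t` -/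
noncomputable def exc (c : ℕ) : Bool :=
  @List.rec ℕ (fun _ => Bool) false (fun h _ ih => bor (Nat.beq c h) ih)
    [1033, 1804, 2069, 3594, 5897, 5899, 6159, 7688, 9227, 13323, 15114, 21259, 22793]

/-- the pair `(m, 2 r + p)` is not needed, or an exception, or it is excluded by `fast` -/
noncomputable def ok (m r p : ℕ) : Bool :=
  frc (Nat.add (Nat.mul (nat_lit 2) r) p) fun t =>
    bor (Nat.ble (Nat.add (Nat.mul (nat_lit 2) m) (nat_lit 6)) t)
      (bor (band (Nat.ble (nat_lit 32) m)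
          (Nat.ble (Nat.mul (nat_lit 16) m) (Nat.mul (Nat.succ t) (Nat.succ t))))
        (bor (exc (Nat.add (Nat.mul (nat_lit 256) m) t)) (fast m r p)))

/-- all `r` with `4 ≤ r < 4 + k` -/
noncomputable def row (m : ℕ) : ℕ → Bool :=
  @Nat.rec (fun _ => Bool) true fun j ih =>
    band (frc (Nat.add j (nat_lit 4)) fun r => band (ok m r (nat_lit 0)) (ok m r (nat_lit 1))) ih

/-- all `m` with `a ≤ m < a + k`, all `t` -/
noncomputable def blk (a : ℕ) : ℕ → Bool :=
  @Nat.rec (fun _ => Bool) true fun j ih =>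
    band (frc (Nat.add a j) fun m => row m (nat_lit 30)) ih

end TightIndep.FM
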