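import Pool.Agent.Lib.MP_f31b39_co.FM.E11

/-!
# FM-Cy: eleven elements, `t = 5`, cyclic groups
-/

namespace TightIndep.FM

open Finset

theorem eleven (G : Type) [AddCommGroup G] [Fintype G] (hc : IsAddCyclic G) (A : Finset G) (hA : Tight 5 A)
    (h11 : A.card = 11) : False := by
  obtain ⟨hI, hG⟩ := hA
  obtain ⟨a, ha⟩ := fam_rel 5 A hI
  have hb : bound 11 5 = 486 := by decide +kernel
  have hcard : Nat.card G = 486 := by rw [Nat.card_eq_fintype_card, hG, h11, hb]
  obtain ⟨e⟩ : Nonempty (G ≃+ ZMod 486) := ⟨by rw [← hcard]; exact (zmodAddCyclicAddEquiv hc).symm⟩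
  clear hI hG
  generalize A.card = m at a h11
  subst h11
  refine eleven_five (fun i => e (a i)) fun v hv hv0 => ha v ?_ hv0
  have h1 : ∑ i, v i • e (a i) = 0 := hv
  have h2 : e (∑ i, v i • a i) = 0 := by
    rw [map_sum, ← h1]
    exact sum_congr rfl fun i _ => map_zsmul e _ _
  exact (map_eq_zero_iff e e.injective).1 h2

end TightIndep.FM
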