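import Pool.Agent.Lib.MP_f31b39_co.FM.CkD

/-!
# FM-D87: the kernel check for 87 ≤ m < 101
-/

namespace TightIndep.FM

set_option maxRecDepth 100000 in
theorem d87 : blk 87 14 = true := by decide +kernel

end TightIndep.FM
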