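import Pool.Agent.Lib.MP_f31b39_co.SX.Defs
import Pool.Agent.Lib.MP_f31b39_co.AS.Defs

/-!
# Board FM (tight sets of at most 100 elements, all `t`): definitions
-/

namespace TightIndep.FM

open Finset

/-- `n!` times the `n`-th coefficient of `exp (∑ P i z ^ i / i)` -/
def EN {R : Type} [CommRing R] (P : ℕ → R) : ℕ → R
  | 0 => 1
  | k + 1 => ∑ i : Fin (k + 1), (k.descFactorial i : R) * P (i + 1) * EN P (k - i)

theorem EN_zero {R : Type} [CommRing R] (P : ℕ → R) : EN P 0 = 1 := by rw [EN]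

theorem EN_succ {R : Type} [CommRing R] (P : ℕ → R) (k : ℕ) :
    EN P (k + 1) = ∑ i ∈ range (k + 1), (k.descFactorial i : R) * P (i + 1) * EN P (k - i) := by
  rw [EN, Finset.sum_range (fun i => (k.descFactorial i : R) * P (i + 1) * EN P (k - i))]

/-- the power sums at `z` -/
def Pz {R : Type} [CommRing R] {d : ℕ} [NeZero d] (N : ℕ) (T : ZMod d → ℕ) (z : R) (l : ℕ) : R :=
  ∑ c, (T c : R) * z ^ (l * c.val) - if Even l then 2 * (N : R) else 0

/-- the properties of the numbers of the elements `± a i` (and `0`) in the classes modulo `d` -/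
structure Cl (d N e r : ℕ) [NeZero d] (T : ZMod d → ℕ) : Prop where
  symm : ∀ c, T (-c) = T c
  sum : ∑ c, T c = 2 * N + e
  gen : ∀ q : ℕ, q.Prime → q ∣ d → ∃ c : ZMod d, T c ≠ 0 ∧ ¬ q ∣ c.val
  eqn : ∀ (R : Type) [CommRing R] (z : R), Polynomial.aeval z (Polynomial.cyclotomic d ℤ) = 0 →
    EN (Pz N T z) r = 0

/-- the power sums at `1` -/
def ci (N e l : ℕ) : ℕ := e + if Even l then 0 else 2 * N

/-- `n!` times the `n`-th coefficient of `(1 + z) ^ N / (1 - z) ^ (N + e)` -/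
def xx (N e : ℕ) : ℕ → ℕ
  | 0 => 1
  | 1 => 2 * N + e
  | n + 2 => (2 * N + e) * xx N e (n + 1) + (n + 1) * (n + e) * xx N e n

/-- the resonance factor of the power sum of order `k + 1` -/
def LL (N e k n : ℕ) : ℕ :=
  ∑ l ∈ range n, (l + 1) ^ k * n.descFactorial (l + 1) * xx N e (n - 1 - l)

end TightIndep.FM
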