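import Pool.Agent.Lib.MP_f31b39_co.FM.SmD

/-!
# FM-Ds: the kernel checks for twelve exceptional pairs
-/

namespace TightIndep.FM

set_option maxRecDepth 100000

theorem s14 : small 3 1 3 1001001 1000 14 1 5 14 = true := by decide +kernel
theorem s23a : small 3 1 3 1001001 1000 22 2 4 23 = true := by decide +kernel
theorem s23b : small 3 1 3 1001001 1000 22 2 5 23 = true := by decide +kernel
theorem s30 : small 3 1 3 1001001 1000 30 1 4 30 = true := by decide +kernel
theorem s36 : small 3 1 3 1001001 1000 35 2 5 36 = true := by decide +kernel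
theorem s52 : small 3 1 3 1001001 1000 51 2 5 52 = true := by decide +kernel
theorem s59 : small 3 1 3 1001001 1000 59 1 5 59 = true := by decide +kernel
theorem s83 : small 3 1 3 1001001 1000 82 2 5 83 = true := by decide +kernel
theorem s7 : small 5 2 5 837931 30 7 1 6 7 = true := by decide +kernel
theorem s8 : small 5 2 5 837931 30 7 2 10 8 = true := by decide +kernel
theorem s89 : small 5 2 5 837931 30 88 2 4 89 = true := by decide +kernel
theorem s24 : small 7 3 7 1111111 10 23 2 7 24 = true := by decide +kernel

/-- divisibility of `bound` at the exceptional pairs -/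
theorem b14 : bf 14 5 0 % 3 = 0 := by decide +kernel
theorem b23a : bf 23 4 1 % 3 = 0 := by decide +kernel
theorem b23b : bf 23 5 1 % 3 = 0 := by decide +kernel
theorem b30 : bf 30 4 0 % 3 = 0 := by decide +kernel
theorem b36 : bf 36 5 1 % 3 = 0 := by decide +kernel
theorem b52 : bf 52 5 1 % 3 = 0 := by decide +kernel
theorem b59 : bf 59 5 0 % 3 = 0 := by decide +kernel
theorem b83 : bf 83 5 1 % 3 = 0 := by decide +kernel
theorem b7 : bf 7 6 0 % 5 = 0 := by decide +kernel
theorem b8 : bf 8 10 1 % 5 = 0 := by decide +kernel
theorem b89 : bf 89 4 1 % 5 = 0 := by decide +kernel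
theorem b24 : bf 24 7 1 % 7 = 0 := by decide +kernel

end TightIndep.FM
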