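import Pool.Agent.Lib.MP_f31b39_co.T8.Eq

/-!
# FM-E11: eleven elements, `t = 5`, the cyclic group of order 486
-/

namespace TightIndep.FM

open Finset

private theorem E_dvd : 243 ∣ 486 := by norm_num

private def Eph : ZMod 486 →+* ZMod 243 := ZMod.castHom E_dvd (ZMod 243)

/-- the residues of `± a i` modulo 243 -/
private def Ef (a : Fin 11 → ZMod 486) (p : Fin 11 × Bool) : ZMod 243 :=
  if p.2 then Eph (a p.1) else - Eph (a p.1)

private theorem Ef_ud (a : Fin 11 → ZMod 486) (p : Fin 11 × Bool) :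
    Ef a p = Eph (∑ i, ud p i • a i) := by
  have h1 : ∑ i, ud p i • a i = ud p p.1 • a p.1 := by
    apply sum_eq_single p.1
    · intro i _ hi
      unfold ud
      rw [Pi.single_eq_of_ne hi, zero_smul]
    · intro h
      exact absurd (mem_univ _) h
  rw [h1]
  unfold ud Ef
  rw [Pi.single_eq_same]
  rcases p with ⟨i, b⟩
  cases b <;> simp

private theorem E_zero (a : Fin 11 → ZMod 486) (h : ∀ v ∈ rel a, v ≠ 0 → 6 ≤ nrm v)
    (hodd : ∀ i, Odd (a i).val) (v : Fin 11 → ℤ) (hv : nrm v ≤ 5) (hs : Even (∑ i, v i))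
    (h0 : Eph (∑ i, v i • a i) = 0) : v = 0 := by
  by_contra hne
  have h1 : ∑ i, v i • a i ≠ 0 := fun h2 => by
    have := h v h2 hne
    omega
  apply h1
  have h2 : ZMod.castHom (show 2 ∣ 486 by norm_num) (ZMod 2) (∑ i, v i • a i) = 0 := by
    rw [map_sum]
    have h3 : ∀ i, ZMod.castHom (show 2 ∣ 486 by norm_num) (ZMod 2) (v i • a i) = ((v i : ℤ) : ZMod 2) := by
      intro i
      rw [map_zsmul]
      have h4 : ZMod.castHom (show 2 ∣ 486 by norm_num) (ZMod 2) (a i) = 1 := by
        rw [ZMod.castHom_apply, ZMod.cast_eq_val]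
        obtain ⟨k, hk⟩ := hodd i
        rw [hk]
        push_cast
        have h5 : (2 : ZMod 2) = 0 := by decide
        rw [h5]
        ring
      rw [h4, zsmul_eq_mul, mul_one]
    rw [sum_congr rfl fun i _ => h3 i, ← Int.cast_sum]
    obtain ⟨k, hk⟩ := hs
    rw [hk]
    push_cast
    exact CharTwo.add_self_eq_zero _
  generalize ∑ i, v i • a i = g at h0 h2
  have h6 : 243 ∣ g.val := by
    have h7 : ((g.val : ℕ) : ZMod 243) = 0 := by
      rw [← h0, Eph, ZMod.castHom_apply, ZMod.cast_eq_val]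
    exact (ZMod.natCast_eq_zero_iff _ _).1 h7
  have h8 : 2 ∣ g.val := by
    have h7 : ((g.val : ℕ) : ZMod 2) = 0 := by
      rw [← h2, ZMod.castHom_apply, ZMod.cast_eq_val]
    exact (ZMod.natCast_eq_zero_iff _ _).1 h7
  have h9 := ZMod.val_lt g
  have h10 : g.val = 0 := by omega
  exact (ZMod.val_eq_zero g).1 h10

private theorem E_sum_ud (p : Fin 11 × Bool) : ∑ i, ud p i = if p.2 then 1 else -1 := by
  unfold ud
  rw [Finset.sum_pi_single']
  simp

private theorem E_four (a : Fin 11 → ZMod 486) (h : ∀ v ∈ rel a, v ≠ 0 → 6 ≤ nrm v)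
    (hodd : ∀ i, Odd (a i).val) (p q p' q' : Fin 11 × Bool) (he : Ef a p + Ef a q = Ef a p' + Ef a q') :
    ud p + ud q = ud p' + ud q' := by
  have h1 : (ud p + ud q) - (ud p' + ud q') = 0 := by
    apply E_zero a h hodd
    · have h2 := nrm_sub_le (ud p + ud q) (ud p' + ud q')
      have h3 := nrm_add_le (ud p) (ud q)
      have h4 := nrm_add_le (ud p') (ud q')
      rw [nrm_ud, nrm_ud] at h3 h4
      omega
    · have h5 : ∑ i, (ud p + ud q - (ud p' + ud q')) i = (∑ i, ud p i + ∑ i, ud q i) - (∑ i, ud p' i + ∑ i, ud q' i) := by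
        simp only [Pi.sub_apply, Pi.add_apply, sum_sub_distrib, sum_add_distrib]
      rw [h5, E_sum_ud, E_sum_ud, E_sum_ud, E_sum_ud]
      rcases p.2 with _ | _ <;> rcases q.2 with _ | _ <;> rcases p'.2 with _ | _ <;> rcases q'.2 with _ | _ <;> decide
    · have h5 : ∑ i, (ud p + ud q - (ud p' + ud q')) i • a i =
          (∑ i, ud p i • a i + ∑ i, ud q i • a i) - (∑ i, ud p' i • a i + ∑ i, ud q' i • a i) := by
        simp only [Pi.sub_apply, Pi.add_apply, sub_smul, add_smul, sum_sub_distrib, sum_add_distrib]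
      rw [h5, map_sub, map_add, map_add, ← Ef_ud, ← Ef_ud, ← Ef_ud, ← Ef_ud, he, sub_self]
  exact sub_eq_zero.1 h1

private theorem E_comb (p q p' q' : Fin 11 × Bool) (he : ud p + ud q = ud p' + ud q') :
    (p = p' ∧ q = q') ∨ (p = q' ∧ q = p') ∨ q = (p.1, !p.2) := by
  have h1 := congrFun he p.1
  simp only [Pi.add_apply, ud] at h1
  have h2 := congrFun he q.1
  simp only [Pi.add_apply, ud] at h2
  by_cases e1 : p = p'
  · left
    refine ⟨e1, ?_⟩
    rw [e1] at he
    have h3 := add_left_cancel he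
    have h4 := congrFun h3 q.1
    simp only [ud, Pi.single_eq_same] at h4
    rcases q with ⟨i, b⟩
    rcases q' with ⟨j, c⟩
    by_cases hij : i = j
    · subst hij
      simp only [Pi.single_eq_same] at h4
      cases b <;> cases c <;> simp_all
    · simp only [Pi.single_eq_of_ne hij] at h4
      cases b <;> simp_all
  by_cases e2 : p = q'
  · right; left
    refine ⟨e2, ?_⟩
    rw [e2, add_comm (ud p')] at he
    have h3 := add_left_cancel he
    have h4 := congrFun h3 q.1
    simp only [ud, Pi.single_eq_same] at h4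
    rcases q with ⟨i, b⟩
    rcases p' with ⟨j, c⟩
    by_cases hij : i = j
    · subst hij
      simp only [Pi.single_eq_same] at h4
      cases b <;> cases c <;> simp_all
    · simp only [Pi.single_eq_of_ne hij] at h4
      cases b <;> simp_all
  right; right
  rcases p with ⟨i, b⟩
  rcases q with ⟨j, c⟩
  rcases p' with ⟨i', b'⟩
  rcases q' with ⟨j', c'⟩
  simp only [Pi.single_eq_same] at h1
  by_cases hj : i = j
  · subst hj
    simp only [Pi.single_eq_same] at h1
    by_cases hi' : i = i' <;> by_cases hj' : i = j'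
    · subst hi'; subst hj'
      cases b <;> cases c <;> cases b' <;> cases c' <;> simp_all
    · subst hi'
      simp only [Pi.single_eq_same, Pi.single_eq_of_ne hj'] at h1
      cases b <;> cases c <;> cases b' <;> simp_all
    · subst hj'
      simp only [Pi.single_eq_same, Pi.single_eq_of_ne hi'] at h1
      cases b <;> cases c <;> cases c' <;> simp_all
    · simp only [Pi.single_eq_of_ne hi', Pi.single_eq_of_ne hj'] at h1
      cases b <;> cases c <;> simp_all
  · simp only [Pi.single_eq_of_ne hj] at h1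
    by_cases hi' : i = i' <;> by_cases hj' : i = j'
    · subst hi'; subst hj'
      cases b <;> cases b' <;> cases c' <;> simp_all
    · subst hi'
      simp only [Pi.single_eq_same, Pi.single_eq_of_ne hj'] at h1
      cases b <;> cases b' <;> simp_all
    · subst hj'
      simp only [Pi.single_eq_same, Pi.single_eq_of_ne hi'] at h1
      cases b <;> cases c' <;> simp_all
    · simp only [Pi.single_eq_of_ne hi', Pi.single_eq_of_ne hj'] at h1
      cases b <;> simp_all

private theorem E_neg (a : Fin 11 → ZMod 486) (p : Fin 11 × Bool) : Ef a p + Ef a (p.1, !p.2) = 0 := by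
  unfold Ef
  rcases p with ⟨i, b⟩
  cases b <;> simp

private theorem E_ud_ne (p q : Fin 11 × Bool) (h : ud p + ud q = 0) : q = (p.1, !p.2) := by
  have h1 := congrFun h p.1
  simp only [Pi.add_apply, ud, Pi.zero_apply, Pi.single_eq_same] at h1
  rcases p with ⟨i, b⟩
  rcases q with ⟨j, c⟩
  by_cases hij : i = j
  · subst hij
    simp only [Pi.single_eq_same] at h1
    cases b <;> cases c <;> simp_all
  · simp only [Pi.single_eq_of_ne hij] at h1
    cases b <;> simp_all

/-- the number of the pairs with sum `y` -/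
private def Er (a : Fin 11 → ZMod 486) (y : ZMod 243) : Finset ((Fin 11 × Bool) × (Fin 11 × Bool)) :=
  univ.filter fun x => Ef a x.1 + Ef a x.2 = y

private def Eo (a : Fin 11 → ZMod 486) (y : ZMod 243) : Finset (Fin 11 × Bool) :=
  univ.filter fun p => Ef a p + Ef a p = y

private theorem E_le (a : Fin 11 → ZMod 486) (h : ∀ v ∈ rel a, v ≠ 0 → 6 ≤ nrm v)
    (hodd : ∀ i, Odd (a i).val) (y : ZMod 243) (hy : y ≠ 0) : (Er a y).card + (Eo a y).card ≤ 2 := by
  rcases (Er a y).eq_empty_or_nonempty with he | ⟨⟨p, q⟩, hpq⟩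
  · have h1 : Eo a y = ∅ := by
      apply eq_empty_of_forall_notMem
      intro p hp
      have h2 : (p, p) ∈ Er a y := by
        unfold Eo at hp
        unfold Er
        rw [mem_filter] at hp ⊢
        exact ⟨mem_univ _, hp.2⟩
      rw [he] at h2
      exact absurd h2 (notMem_empty _)
    rw [he, h1]
    simp
  · unfold Er at hpq
    rw [mem_filter] at hpq
    have hpq' : Ef a p + Ef a q = y := hpq.2
    have hnot : q ≠ (p.1, !p.2) := by
      intro h1
      apply hy
      rw [← hpq', h1, E_neg]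
    have hall : ∀ p' q', Ef a p' + Ef a q' = y → (p = p' ∧ q = q') ∨ (p = q' ∧ q = p') := by
      intro p' q' h1
      have h2 := E_four a h hodd p q p' q' (by rw [hpq', h1])
      rcases E_comb p q p' q' h2 with h3 | h3 | h3
      · exact Or.inl h3
      · exact Or.inr h3
      · exact absurd h3 hnot
    by_cases hp : p = q
    · have h1 : Er a y ⊆ {(p, p)} := by
        rintro ⟨p', q'⟩ hx
        unfold Er at hx
        rw [mem_filter] at hx
        rw [mem_singleton]
        rcases hall p' q' hx.2 with ⟨h2, h3⟩ | ⟨h2, h3⟩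
        · rw [← h2, ← h3, ← hp]
        · rw [← h2, ← h3, ← hp]
      have h2 : Eo a y ⊆ {p} := by
        intro p' hx
        unfold Eo at hx
        rw [mem_filter] at hx
        rw [mem_singleton]
        rcases hall p' p' hx.2 with ⟨h2, h3⟩ | ⟨h2, h3⟩
        · exact h2.symm
        · exact h2.symm
      have h3 := card_le_card h1
      have h4 := card_le_card h2
      rw [card_singleton] at h3 h4
      omega
    · have h1 : Er a y ⊆ {(p, q), (q, p)} := by
        rintro ⟨p', q'⟩ hx
        unfold Er at hx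
        rw [mem_filter] at hx
        rw [mem_insert, mem_singleton]
        rcases hall p' q' hx.2 with ⟨h2, h3⟩ | ⟨h2, h3⟩
        · left; rw [← h2, ← h3]
        · right; rw [← h2, ← h3]
      have h2 : Eo a y = ∅ := by
        apply eq_empty_of_forall_notMem
        intro p' hx
        unfold Eo at hx
        rw [mem_filter] at hx
        apply hp
        rcases hall p' p' hx.2 with ⟨h2, h3⟩ | ⟨h2, h3⟩
        · rw [h2, h3]
        · rw [h2, h3]
      have h3 := (card_le_card h1).trans card_le_two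
      rw [h2, card_empty]
      omega

private theorem E_c0 (a : Fin 11 → ZMod 486) (h : ∀ v ∈ rel a, v ≠ 0 → 6 ≤ nrm v)
    (hodd : ∀ i, Odd (a i).val) : (Er a 0).card + (Eo a 0).card ≤ 22 := by
  have h1 : ∀ p q, Ef a p + Ef a q = 0 → q = (p.1, !p.2) := by
    intro p q h2
    apply E_ud_ne
    rw [E_four a h hodd p q p (p.1, !p.2) (by rw [h2, E_neg])]
    funext i
    simp only [Pi.add_apply, ud, Pi.zero_apply]
    rcases p with ⟨j, b⟩
    by_cases hij : i = j
    · subst hij
      cases b <;> simp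
    · simp only [Pi.single_eq_of_ne hij, add_zero]
  have h2 : Eo a 0 = ∅ := by
    apply eq_empty_of_forall_notMem
    intro p hx
    unfold Eo at hx
    rw [mem_filter] at hx
    have h3 := h1 p p hx.2
    rcases p with ⟨i, b⟩
    cases b <;> simp at h3
  have h3 : Er a 0 ⊆ (univ : Finset (Fin 11 × Bool)).image fun p => (p, (p.1, !p.2)) := by
    rintro ⟨p, q⟩ hx
    unfold Er at hx
    rw [mem_filter] at hx
    rw [mem_image]
    exact ⟨p, mem_univ _, by rw [h1 p q hx.2]⟩
  have h4 := (card_le_card h3).trans card_image_le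
  rw [h2, card_empty]
  simpa using h4

private theorem E_tot (a : Fin 11 → ZMod 486) : ∑ y, ((Er a y).card + (Eo a y).card) = 506 := by
  rw [sum_add_distrib]
  have h1 : ∑ y, (Er a y).card = 484 := by
    unfold Er
    rw [← card_eq_sum_card_fiberwise (f := fun x : (Fin 11 × Bool) × (Fin 11 × Bool) => Ef a x.1 + Ef a x.2)
      (fun _ _ => mem_coe.2 (mem_univ _))]
    simp
  have h2 : ∑ y, (Eo a y).card = 22 := by
    unfold Eo
    rw [← card_eq_sum_card_fiberwise (f := fun x : Fin 11 × Bool => Ef a x + Ef a x)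
      (fun _ _ => mem_coe.2 (mem_univ _))]
    simp
  rw [h1, h2]

private theorem E_two (a : Fin 11 → ZMod 486) (h : ∀ v ∈ rel a, v ≠ 0 → 6 ≤ nrm v)
    (hodd : ∀ i, Odd (a i).val) (y : ZMod 243) (hy : y ≠ 0) : (Er a y).card + (Eo a y).card = 2 := by
  by_contra hne
  have h1 := E_le a h hodd y hy
  have h2 : ∑ y, ((Er a y).card + (Eo a y).card) < ∑ y : ZMod 243, (if y = 0 then 22 else 2) := by
    apply sum_lt_sum
    · intro z _
      by_cases hz : z = 0
      · rw [if_pos hz, hz]
        exact E_c0 a h hodd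
      · rw [if_neg hz]
        exact E_le a h hodd z hz
    · refine ⟨y, mem_univ _, ?_⟩
      rw [if_neg hy]
      omega
  rw [E_tot] at h2
  have h3 : ∑ y : ZMod 243, (if y = 0 then 22 else 2) = 506 := by
    rw [← Finset.add_sum_erase univ _ (mem_univ (0 : ZMod 243)), if_pos rfl]
    have h4 : ∑ y ∈ univ.erase (0 : ZMod 243), (if y = 0 then 22 else 2) = ∑ y ∈ univ.erase (0 : ZMod 243), 2 :=
      sum_congr rfl fun z hz => if_neg (ne_of_mem_erase hz)
    rw [h4, sum_const, card_erase_of_mem (mem_univ _), card_univ, ZMod.card]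
    rfl
  omega

/-- the power sums -/
private def EM (a : Fin 11 → ZMod 486) (k : ℕ) : ZMod 243 := ∑ p, Ef a p ^ k

private theorem E_sum (a : Fin 11 → ZMod 486) (h : ∀ v ∈ rel a, v ≠ 0 → 6 ≤ nrm v)
    (hodd : ∀ i, Odd (a i).val) (F : ZMod 243 → ZMod 243) (hF : F 0 = 0) :
    ∑ p, ∑ q, F (Ef a p + Ef a q) + ∑ p, F (Ef a p + Ef a p) = 2 * ∑ y, F y := by
  have h1 : ∑ p, ∑ q, F (Ef a p + Ef a q) = ∑ y, ((Er a y).card : ZMod 243) * F y := by
    rw [← Fintype.sum_prod_type' (f := fun p q => F (Ef a p + Ef a q)),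
      ← sum_fiberwise_of_maps_to (s := univ) (t := univ)
        (g := fun x : (Fin 11 × Bool) × (Fin 11 × Bool) => Ef a x.1 + Ef a x.2) (fun _ _ => mem_univ _)]
    refine sum_congr rfl fun y _ => ?_
    unfold Er
    rw [sum_congr rfl (g := fun _ => F y) (fun x hx => by rw [(mem_filter.1 hx).2]), sum_const, nsmul_eq_mul]
  have h2 : ∑ p, F (Ef a p + Ef a p) = ∑ y, ((Eo a y).card : ZMod 243) * F y := by
    rw [← sum_fiberwise_of_maps_to (s := univ) (t := univ)
        (g := fun x : Fin 11 × Bool => Ef a x + Ef a x) (fun _ _ => mem_univ _)]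
    refine sum_congr rfl fun y _ => ?_
    unfold Eo
    rw [sum_congr rfl (g := fun _ => F y) (fun x hx => by rw [(mem_filter.1 hx).2]), sum_const, nsmul_eq_mul]
  rw [h1, h2, ← sum_add_distrib, mul_sum]
  refine sum_congr rfl fun y _ => ?_
  rw [← add_mul]
  by_cases hy : y = 0
  · rw [hy, hF, mul_zero, mul_zero]
  · have h3 := E_two a h hodd y hy
    have h4 : ((Er a y).card : ZMod 243) + ((Eo a y).card : ZMod 243) = 2 := by
      rw [← Nat.cast_add, h3]
      rfl
    rw [h4]

private theorem E_pow (a : Fin 11 → ZMod 486) (k : ℕ) :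
    ∑ p, ∑ q, (Ef a p + Ef a q) ^ k = ∑ l ∈ range (k + 1), (k.choose l : ZMod 243) * EM a l * EM a (k - l) := by
  have h1 : ∀ p q, (Ef a p + Ef a q) ^ k =
      ∑ l ∈ range (k + 1), (k.choose l : ZMod 243) * Ef a p ^ l * Ef a q ^ (k - l) := by
    intro p q
    rw [add_pow]
    refine sum_congr rfl fun l _ => ?_
    ring
  simp_rw [h1]
  unfold EM
  have h2 : ∀ p, ∑ q, ∑ l ∈ range (k + 1), (k.choose l : ZMod 243) * Ef a p ^ l * Ef a q ^ (k - l) =
      ∑ l ∈ range (k + 1), (k.choose l : ZMod 243) * Ef a p ^ l * ∑ q, Ef a q ^ (k - l) := by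
    intro p
    rw [sum_comm]
    refine sum_congr rfl fun l _ => ?_
    rw [mul_sum]
  simp_rw [h2]
  rw [sum_comm]
  refine sum_congr rfl fun l _ => ?_
  rw [← sum_mul, ← mul_sum]

private theorem EM_odd (a : Fin 11 → ZMod 486) (k : ℕ) (hk : Odd k) : EM a k = 0 := by
  unfold EM
  rw [Fintype.sum_prod_type]
  refine sum_eq_zero fun i _ => ?_
  rw [Fintype.sum_bool]
  simp only [Ef, if_true, Bool.false_eq_true, if_false]
  rw [hk.neg_pow, add_neg_cancel]

private theorem EM_zero (a : Fin 11 → ZMod 486) : EM a 0 = 22 := by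
  unfold EM
  simp

private theorem E_dbl (a : Fin 11 → ZMod 486) (k : ℕ) : ∑ p, (Ef a p + Ef a p) ^ k = 2 ^ k * EM a k := by
  unfold EM
  rw [mul_sum]
  refine sum_congr rfl fun p _ => ?_
  rw [← two_mul, mul_pow]

private theorem E_nine : ∀ x : ZMod 9, x ^ 4 = 2 * x ^ 2 - x ^ 6 := by decide

private theorem E_S2 : 2 * ∑ y : ZMod 243, y ^ 2 = 81 := by decide +kernel
private theorem E_S4 : 2 * ∑ y : ZMod 243, y ^ 4 = 81 := by decide +kernel
private theorem E_S6 : 2 * ∑ y : ZMod 243, y ^ 6 = 81 := by decide +kernel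

theorem eleven_five (a : Fin 11 → ZMod 486) (h : ∀ v ∈ rel a, v ≠ 0 → 6 ≤ nrm v) : False := by
  have hodd : ∀ i, Odd (a i).val := by
    intro i
    exact T8.odd_val 2 a h (by rw [ZMod.card]; decide +kernel) i
  have hS : ∀ k, 1 ≤ k → ∑ l ∈ range (k + 1), (k.choose l : ZMod 243) * EM a l * EM a (k - l) + 2 ^ k * EM a k =
      2 * ∑ y : ZMod 243, y ^ k := by
    intro k hk
    rw [← E_pow, ← E_dbl]
    exact E_sum a h hodd (fun y => y ^ k) (zero_pow (by omega))
  have h2 := hS 2 (by norm_num)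
  have h4 := hS 4 (by norm_num)
  have h6 := hS 6 (by norm_num)
  rw [E_S2] at h2
  rw [E_S4] at h4
  rw [E_S6] at h6
  simp only [sum_range_succ, sum_range_zero] at h2 h4 h6
  norm_num [EM_zero, EM_odd a 1 (by decide), EM_odd a 3 (by decide), EM_odd a 5 (by decide), Nat.choose] at h2 h4 h6
  have cast : ∀ (c d : ℕ) (z : ZMod 243), (c : ZMod 243) * z = (d : ZMod 243) → (c * z.val) % 243 = d % 243 := by
    intro c d z hz
    have h1 : ((c * z.val : ℕ) : ZMod 243) = ((d : ℕ) : ZMod 243) := by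
      rw [Nat.cast_mul, ZMod.natCast_zmod_val]
      exact hz
    exact (ZMod.natCast_eq_natCast_iff' _ _ _).1 h1
  have hval : ∀ z : ZMod 243, z.val % 27 = 0 → ∃ u : ZMod 243, z = 27 * u := by
    intro z hz
    obtain ⟨u, hu⟩ := Nat.dvd_of_mod_eq_zero hz
    refine ⟨(u : ZMod 243), ?_⟩
    rw [← ZMod.natCast_zmod_val z, hu]
    push_cast
    rfl
  have e2 := cast 48 81 (EM a 2) (by push_cast; linear_combination h2)
  have f2 : (EM a 2).val % 81 = 27 := by omega
  obtain ⟨u, hu⟩ := hval (EM a 2) (by omega)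
  have h27 : (27 : ZMod 243) * 27 = 0 := by decide
  have e4 := cast 60 81 (EM a 4) (by
    push_cast
    have h5 : EM a 2 * EM a 2 = 0 := by
      rw [hu]
      linear_combination (u * u) * h27
    linear_combination h4 - 6 * h5)
  have f4 : (EM a 4).val % 81 = 54 := by omega
  obtain ⟨w, hw⟩ := hval (EM a 4) (by omega)
  have e6 := cast 108 81 (EM a 6) (by
    push_cast
    have h5 : EM a 2 * EM a 4 = 0 := by
      rw [hu, hw]
      linear_combination (u * w) * h27
    linear_combination h6 - 30 * h5)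
  have f6 : (EM a 6).val % 9 = 3 := by omega
  obtain ⟨ψ, hψ⟩ : ∃ ψ : ZMod 243 →+* ZMod 9, ψ = ZMod.castHom (show 9 ∣ 243 by norm_num) (ZMod 9) := ⟨_, rfl⟩
  have hv : ∀ z : ZMod 243, ψ z = ((z.val : ℕ) : ZMod 9) := by
    intro z
    rw [hψ, ZMod.castHom_apply, ZMod.cast_eq_val]
  have h9 : ψ (EM a 4) = 2 * ψ (EM a 2) - ψ (EM a 6) := by
    unfold EM
    rw [map_sum, map_sum, map_sum, mul_sum, ← sum_sub_distrib]
    refine sum_congr rfl fun p _ => ?_
    rw [map_pow, map_pow, map_pow]
    exact E_nine _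
  rw [hv, hv, hv] at h9
  have g2 : (((EM a 2).val : ℕ) : ZMod 9) = 0 := (ZMod.natCast_eq_zero_iff _ _).2 (by omega)
  have g4 : (((EM a 4).val : ℕ) : ZMod 9) = 0 := (ZMod.natCast_eq_zero_iff _ _).2 (by omega)
  have g6 : (((EM a 6).val : ℕ) : ZMod 9) = ((3 : ℕ) : ZMod 9) := (ZMod.natCast_eq_natCast_iff' _ _ _).2 (by omega)
  rw [g2, g4, g6] at h9
  exact absurd h9 (by decide)

end TightIndep.FM
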