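import Pool.Agent.Lib.MP_f31b39_co.FM.CkD

/-!
# FM-Xl: the product of the resonance factors, fast evaluation
-/

namespace TightIndep.FM

open Finset

private theorem frc_eq {α : Type} (x : ℕ) (f : ℕ → α) : frc x f = f x := by
  cases x <;> rfl

private theorem xl_succ (s e n : ℕ) :
    xl s e (n + 1) = (s * hd (xl s e n) + n * (n + e - 1) * hd (tl (xl s e n))) :: xl s e n := by
  have h : xl s e (n + 1) = frc (s * hd (xl s e n) + n * (n + e - 1) * hd (tl (xl s e n)))
      fun v => v :: xl s e n := rfl
  rw [h, frc_eq]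

theorem xl_eq (N e n : ℕ) (he : 1 ≤ e) :
    xl (2 * N + e) e n = ((List.range (n + 1)).reverse).map (xx N e) := by
  induction n with
  | zero => rfl
  | succ n ih =>
    rw [xl_succ, ih]
    have h1 : ∀ k : ℕ, ((List.range (k + 1)).reverse).map (xx N e) =
        xx N e k :: ((List.range k).reverse).map (xx N e) := by
      intro k
      rw [List.range_succ, List.reverse_append]
      rfl
    rw [h1 (n + 1)]
    congr 1
    rw [h1 n]
    show (2 * N + e) * xx N e n + n * (n + e - 1) * hd (((List.range n).reverse).map (xx N e)) =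
      xx N e (n + 1)
    cases n with
    | zero =>
      rw [zero_mul, zero_mul, add_zero]
      show (2 * N + e) * 1 = 2 * N + e
      rw [mul_one]
    | succ k =>
      rw [h1 k]
      show (2 * N + e) * xx N e (k + 1) + (k + 1) * (k + 1 + e - 1) * xx N e k =
        (2 * N + e) * xx N e (k + 1) + (k + 1) * (k + e) * xx N e k
      have h2 : k + 1 + e - 1 = k + e := by omega
      rw [h2]

private theorem wl_cons (n a : ℕ) (L : List ℕ) (ρ D : ℕ) :
    wl n (a :: L) ρ D = (D * ρ * a % n) :: wl n L (ρ - 1) (D * ρ) := by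
  have h : wl n (a :: L) ρ D = frc (D * ρ) fun D' => frc (D' * a % n) fun v =>
      v :: wl n L (ρ - 1) D' := rfl
  rw [h, frc_eq, frc_eq]

private theorem ev_cons (k w : ℕ) (ws : List ℕ) (l : ℕ) :
    ev k (w :: ws) l = l ^ k * w + ev k ws (l + 1) := rfl

private theorem ev_wl (n k : ℕ) (L : List ℕ) : ∀ ρ D l : ℕ, ev k (wl n L ρ D) l ≡
    ∑ i ∈ range L.length, (l + i) ^ k * (D * ρ.descFactorial (i + 1) * L.getD i 0) [MOD n] := by
  induction L with
  | nil =>
    intro ρ D l
    rw [List.length_nil, sum_range_zero]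
    exact Nat.ModEq.refl _
  | cons a L ih =>
    intro ρ D l
    rw [wl_cons, ev_cons, List.length_cons, sum_range_succ', add_comm]
    refine Nat.ModEq.add ?_ ?_
    · refine (ih (ρ - 1) (D * ρ) (l + 1)).trans ?_
      have h1 : ∀ i ∈ range L.length,
          (l + 1 + i) ^ k * (D * ρ * (ρ - 1).descFactorial (i + 1) * L.getD i 0) =
          (l + (i + 1)) ^ k * (D * ρ.descFactorial (i + 1 + 1) * (a :: L).getD (i + 1) 0) := by
        intro i _
        have h2 : ρ.descFactorial (i + 1 + 1) = ρ * (ρ - 1).descFactorial (i + 1) := by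
          cases ρ with
          | zero => simp
          | succ ρ => rw [Nat.succ_descFactorial_succ, Nat.add_sub_cancel]
        rw [h2, List.getD_cons_succ, show l + 1 + i = l + (i + 1) by ring]
        ring
      rw [sum_congr rfl h1]
    · rw [Nat.descFactorial_one, List.getD_cons_zero, add_zero]
      exact Nat.ModEq.mul_left _ (Nat.mod_modEq _ _)

theorem ev_eq (n N e r k : ℕ) (he : 1 ≤ e) (hr : 1 ≤ r) :
    ev k (wl n (xl (2 * N + e) e (r - 1)) r 1) 1 ≡ LL N e k r [MOD n] := by
  rw [xl_eq N e (r - 1) he, Nat.sub_add_cancel hr]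
  refine (ev_wl n k _ r 1 1).trans ?_
  rw [List.length_map, List.length_reverse, List.length_range]
  unfold LL
  have h1 : ∀ i ∈ range r, (1 + i) ^ k * (1 * r.descFactorial (i + 1) *
      (((List.range r).reverse).map (xx N e)).getD i 0) =
      (i + 1) ^ k * r.descFactorial (i + 1) * xx N e (r - 1 - i) := by
    intro i hi
    rw [mem_range] at hi
    have h2 : (((List.range r).reverse).map (xx N e)).getD i 0 = xx N e (r - 1 - i) := by
      rw [List.getD_eq_getElem _ _ (by simpa using hi), List.getElem_map, List.getElem_reverse,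
        List.getElem_range, List.length_range]
    rw [h2, one_mul, add_comm 1 i]
    ring
  rw [sum_congr rfl h1]

theorem qq_eq (n N e r Q J : ℕ) (he : 1 ≤ e) (hr : 1 ≤ r) :
    qq n (wl n (xl (2 * N + e) e (r - 1)) r 1) Q J ≡
      Q * ∏ j ∈ range J, LL N e (2 * j + 1) r [MOD n] := by
  induction J with
  | zero =>
    rw [prod_range_zero, mul_one]
    exact Nat.ModEq.refl _
  | succ J ih =>
    rw [prod_range_succ, ← mul_assoc]
    show qq n (wl n (xl (2 * N + e) e (r - 1)) r 1) Q J *
      ev (2 * J + 1) (wl n (xl (2 * N + e) e (r - 1)) r 1) 1 % n ≡ _ [MOD n]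
    refine (Nat.mod_modEq _ _).trans ?_
    exact Nat.ModEq.mul ih (ev_eq n N e r (2 * J + 1) he hr)

end TightIndep.FM
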