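import Pool.Agent.Lib.MP_f31b39_co.FM.Bf
import Pool.Agent.Lib.MP_f31b39_co.FM.Xl
import Pool.Agent.Lib.MP_f31b39_co.FM.Ar

/-!
# FM-Fs: soundness of `fast`
-/

namespace TightIndep.FM

open Finset

private theorem Fs_frc {α : Type} (x : ℕ) (f : ℕ → α) : frc x f = f x := by
  cases x <;> rfl

private theorem Fs_band (a b : Bool) : band a b = true ↔ a = true ∧ b = true := by
  cases a
  · show false = true ↔ _
    simp
  · show b = true ↔ _
    simp

private theorem Fs_bound_pos (m r p : ℕ) (hm : 1 ≤ m) (hp : p ≤ 1) : 0 < bound m (2 * r + p) := by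
  unfold bound
  rcases Nat.lt_or_ge p 1 with h0 | h1
  · have hp0 : p = 0 := by omega
    rw [hp0, Nat.add_zero, if_pos (even_two_mul r)]
    refine Finset.sum_pos' (fun i _ => Nat.zero_le _) ⟨0, Finset.mem_range.2 (Nat.succ_pos m), ?_⟩
    simp
  · have hp1 : p = 1 := by omega
    have hodd : ¬ Even (2 * r + 1) := by
      rw [Nat.not_even_iff_odd]
      exact odd_two_mul_add_one r
    rw [hp1, if_neg hodd]
    refine Finset.sum_pos' (fun i _ => Nat.zero_le _) ⟨1, Finset.mem_Icc.2 ⟨le_rfl, hm⟩, ?_⟩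
    have h2 : (2 * r + 1 + 1) / 2 = r + 1 := by omega
    rw [h2]
    simp

theorem fac_eq (n : ℕ) : fac n = n.factorial := by
  induction n with
  | zero => rfl
  | succ k ih =>
    show Nat.mul (Nat.succ k) (fac k) = _
    rw [ih]
    rfl

theorem fast_spec (m r p : ℕ) (hm : 1 ≤ m) (hp : p ≤ 1) (hr : 1 ≤ r) (h : fast m r p = true) :
    ∃ q : ℕ, q.Prime ∧ q ∣ bound m (2 * r + p) ∧ 2 * m + 3 ≤ q ∧
      ∀ j < m, ¬ q ∣ LL (m - p) (1 + p) (2 * j + 1) r := by
  unfold fast at h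
  rw [Fs_frc, Fs_band] at h
  obtain ⟨h1, h2⟩ := h
  have h1' := Nat.le_of_ble_eq_true h1
  have h2' := Nat.le_of_ble_eq_true h2
  have hb : bound m (2 * r + p) = bf m r p := (bf_eq m r p hm hp).symm
  have hpos : 0 < bf m r p := by
    rw [← hb]
    exact Fs_bound_pos m r p hm hp
  rw [hb]
  generalize bf m r p = n at *
  simp only [Nat.pow_eq, Nat.add_eq, Nat.mul_eq, Nat.sub_eq, Nat.succ_eq_add_one] at h1' h2'
  have h3 : 1 ≤ (qq n (wl n (xl (2 * (m - p) + (p + 1)) (p + 1) (r - 1)) r 1) (fac (2 * m + 2)) m) ^ 256 % n := h2'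
  have h4 := qq_eq n (m - p) (p + 1) r (fac (2 * m + 2)) m (Nat.succ_le_succ (Nat.zero_le p)) hr
  have h5 := h4.pow 256
  unfold Nat.ModEq at h5
  rw [h5, fac_eq] at h3
  obtain ⟨q, hq, hqn, hqQ⟩ := ar n _ 256 hpos h1' (Nat.one_le_iff_ne_zero.1 h3)
  refine ⟨q, hq, hqn, ?_, ?_⟩
  · by_contra hlt
    exact hqQ (Dvd.dvd.mul_right ((Nat.Prime.dvd_factorial hq).2 (by omega)) _)
  · intro j hj hd
    rw [Nat.add_comm 1 p] at hd
    exact hqQ (Dvd.dvd.mul_left (hd.trans (Finset.dvd_prod_of_mem (fun j => LL (m - p) (p + 1) (2 * j + 1) r)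
      (Finset.mem_range.2 hj))) _)

end TightIndep.FM
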