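import Pool.Agent.Lib.MP_f31b39_co.FM.SmD

/-!
# FM-Pl: the list of the power sums
-/

namespace TightIndep.FM

open Finset

private theorem Pl_frc {α : Type} (x : ℕ) (f : ℕ → α) : frc x f = f x := by
  cases x <;> rfl

private theorem Pl_band {b x : Bool} (h : band b x = true) : b = true ∧ x = true := by
  cases b
  · exact absurd h (by show ¬ (false = true); decide)
  · exact ⟨rfl, h⟩

private theorem Pl_bor {b x : Bool} (h : bor b x = true) : b = true ∨ x = true := by
  cases b
  · exact Or.inr h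
  · exact Or.inl rfl

theorem lsum_eq (l : List ℕ) : lsum l = l.sum := by
  induction l with
  | nil => rfl
  | cons a l ih =>
    rw [List.sum_cons, ← ih]
    rfl

private theorem Pl_dt (d z i : ℕ) (l : List ℕ) : ∀ j0 : ℕ, dt d z i l j0 =
    ∑ u ∈ range l.length, l.getD u 0 * (z ^ ((j0 + u) * i) + z ^ ((d - (j0 + u)) * i)) := by
  induction l with
  | nil => intro j0; rfl
  | cons a l ih =>
    intro j0
    have h1 : dt d z i (a :: l) j0 =
        a * (z ^ (j0 * i) + z ^ ((d - j0) * i)) + dt d z i l (j0 + 1) := rfl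
    rw [h1, ih (j0 + 1), List.length_cons, sum_range_succ', List.getD_cons_zero, Nat.add_zero, Nat.add_comm]
    congr 1
    refine sum_congr rfl fun u _ => ?_
    rw [List.getD_cons_succ, show j0 + 1 + u = j0 + (u + 1) by ring]

/-- the correction for even `i` -/
private noncomputable def plE (M N i : ℕ) : ℕ :=
  @Nat.rec (fun _ => ℕ) (Nat.mul (Nat.mul (nat_lit 2) N) (Nat.sub M (nat_lit 1))) (fun _ _ => nat_lit 0)
    (Nat.mod i (nat_lit 2))

private theorem Pl_e (M N i : ℕ) (hM : 2 ≤ M) :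
    ((plE M N i : ℕ) : ZMod M) = - if Even i then 2 * (N : ZMod M) else 0 := by
  have hmod : Nat.mod i (nat_lit 2) = i % 2 := rfl
  unfold plE
  rw [hmod]
  by_cases h : Even i
  · rw [if_pos h, Nat.even_iff.1 h]
    show ((2 * N * (M - 1) : ℕ) : ZMod M) = _
    have h1 : ((M - 1 : ℕ) : ZMod M) = -1 := by
      rw [Nat.cast_sub (by omega)]
      simp
    rw [Nat.cast_mul, h1]
    push_cast
    ring
  · rw [if_neg h, Nat.not_even_iff.1 h]
    show ((0 : ℕ) : ZMod M) = _
    simp

private theorem Pl_succ (d M z N : ℕ) (l : List ℕ) (T0 k i : ℕ) :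
    pl d M z N l T0 (k + 1) i = ((T0 + dt d z i l 1 + plE M N i) % M) :: pl d M z N l T0 k (i + 1) := by
  have h1 : pl d M z N l T0 (k + 1) i = frc ((T0 + dt d z i l 1 + plE M N i) % M)
      fun v => List.cons v (pl d M z N l T0 k (i + 1)) := rfl
  rw [h1, Pl_frc]

theorem pl_spec (d M z N : ℕ) (hM : 2 ≤ M) (l : List ℕ) (T0 k i : ℕ) :
    (pl d M z N l T0 k i).length = k ∧ ∀ j, j < k → (((pl d M z N l T0 k i).getD j 0 : ℕ) : ZMod M) =
      T0 + ∑ u ∈ range l.length, (l.getD u 0 : ZMod M) *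
        ((z : ZMod M) ^ ((u + 1) * (i + j)) + (z : ZMod M) ^ ((d - (u + 1)) * (i + j))) -
        if Even (i + j) then 2 * (N : ZMod M) else 0 := by
  induction k generalizing i with
  | zero => exact ⟨rfl, fun j hj => absurd hj (Nat.not_lt_zero j)⟩
  | succ k ih =>
    rw [Pl_succ]
    refine ⟨?_, ?_⟩
    · rw [List.length_cons, (ih (i + 1)).1]
    · rintro (_ | j) hj
      · rw [List.getD_cons_zero, ZMod.natCast_mod, Nat.cast_add, Nat.cast_add, Pl_e M N i hM, Pl_dt]
        push_cast
        rw [Nat.add_zero, sub_eq_add_neg]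
        congr 2
        refine sum_congr rfl fun u _ => ?_
        rw [Nat.add_comm 1 u]
      · rw [List.getD_cons_succ, (ih (i + 1)).2 j (by omega), show i + 1 + j = i + (j + 1) by ring]

private theorem Pl_dg (q : ℕ) (l : List ℕ) : ∀ j0 : ℕ, dg q l j0 = true → ∀ u, ¬ q ∣ (j0 + u) →
    l.getD u 0 = 0 := by
  induction l with
  | nil => intro j0 _ u _; simp
  | cons a l ih =>
    intro j0 h u hu
    have h1 : band (bor (Nat.beq (j0 % q) 0) (Nat.beq a 0)) (dg q l (j0 + 1)) = true := h
    obtain ⟨h2, h3⟩ := Pl_band h1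
    rcases u with _ | u
    · rw [List.getD_cons_zero]
      rcases Pl_bor h2 with h4 | h4
      · exfalso
        exact hu (by rw [Nat.add_zero]; exact Nat.dvd_of_mod_eq_zero (Nat.eq_of_beq_eq_true h4))
      · exact Nat.eq_of_beq_eq_true h4
    · rw [List.getD_cons_succ]
      refine ih (j0 + 1) h3 u ?_
      rw [show j0 + 1 + u = j0 + (u + 1) by ring]
      exact hu

theorem dg_spec (q : ℕ) (l : List ℕ) (h : dg q l 1 = true) (u : ℕ) (hu : ¬ q ∣ (u + 1)) :
    l.getD u 0 = 0 := by
  refine Pl_dg q l 1 h u ?_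
  rw [Nat.add_comm]
  exact hu

end TightIndep.FM
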