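import Pool.Agent.Lib.MP_f31b39_co.FM.Al
import Pool.Agent.Lib.MP_f31b39_co.FM.Pl

/-!
# FM-Sm: soundness of `small`
-/

namespace TightIndep.FM

open Finset

private theorem Sm_frc {α : Type} (x : ℕ) (f : ℕ → α) : frc x f = f x := by
  cases x <;> rfl

private theorem Sm_bor {b x : Bool} (h : bor b x = true) : b = true ∨ x = true := by
  cases b
  · exact Or.inr h
  · exact Or.inl rfl

private theorem Sm_neg {d : ℕ} [NeZero d] {v : ℕ} (hv : v ≤ d) : ((d - v : ℕ) : ZMod d) = -((v : ℕ) : ZMod d) := by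
  rw [Nat.cast_sub hv, ZMod.natCast_self, zero_sub]

private theorem Sm_sum {α : Type} [AddCommMonoid α] {d h : ℕ} [NeZero d] (hd : d = 2 * h + 1) (G : ZMod d → α) :
    ∑ c, G c = G 0 + ∑ u ∈ range h, (G ((u + 1 : ℕ) : ZMod d) + G ((d - (u + 1) : ℕ) : ZMod d)) := by
  have h1 : ∑ v ∈ range d, G ((v : ℕ) : ZMod d) = ∑ c, G c := by
    refine Finset.sum_bij' (fun i _ => ((i : ℕ) : ZMod d)) (fun x _ => x.val) ?_ ?_ ?_ ?_ ?_
    · intro i _
      exact mem_univ _
    · intro x _
      exact mem_range.2 (ZMod.val_lt x)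
    · intro i hi
      exact ZMod.val_cast_of_lt (mem_range.1 hi)
    · intro x _
      exact ZMod.natCast_zmod_val x
    · intro i _
      rfl
  have h2 : range d = range (h + h + 1) := by
    rw [hd, two_mul]
  rw [← h1, h2, Finset.sum_range_succ', Finset.sum_range_add, Nat.cast_zero, add_comm, Finset.sum_add_distrib]
  congr 2
  rw [← Finset.sum_range_reflect]
  refine Finset.sum_congr rfl fun u hu => ?_
  have hu' := mem_range.1 hu
  have h3 : h + (h - 1 - u) + 1 = d - (u + 1) := by omega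
  rw [h3]

private theorem Sm_list (f : ℕ → ℕ) (h : ℕ) : ((List.range h).map f).sum = ∑ u ∈ range h, f u := by
  induction h with
  | zero => simp
  | succ h ih => rw [List.range_succ, List.map_append, List.sum_append, ih, Finset.sum_range_succ]; simp

private theorem Sm_getD (f : ℕ → ℕ) (h u : ℕ) (hu : u < h) : ((List.range h).map f).getD u 0 = f u := by
  rw [List.getD_eq_getElem?_getD, List.getElem?_map, List.getElem?_range hu]
  rfl

theorem small_spec {d : ℕ} [NeZero d] (h q M z N e r S : ℕ) (hd : d = 2 * h + 1) (hq : q.Prime) (hqd : q ∣ d)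
    (hM : 2 ≤ M) (hz : Polynomial.aeval (z : ZMod M) (Polynomial.cyclotomic d ℤ) = 0) (hS : 2 * N + e ≤ 2 * S + 1)
    (H : small d h q M z N e r S = true) (T : ZMod d → ℕ) (hT : Cl d N e r T) : False := by
  obtain ⟨l, hl⟩ : ∃ l : List ℕ, l = (List.range h).map fun u => T ((u + 1 : ℕ) : ZMod d) := ⟨_, rfl⟩
  have hlen : l.length = h := by rw [hl]; simp
  have hget : ∀ u, u < h → l.getD u 0 = T ((u + 1 : ℕ) : ZMod d) := fun u hu => by
    rw [hl, Sm_getD _ _ _ hu]
  have hTn : ∀ u, u < h → T ((d - (u + 1) : ℕ) : ZMod d) = T ((u + 1 : ℕ) : ZMod d) := fun u hu => by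
    rw [Sm_neg (by omega), hT.symm]
  have hsum : T 0 + 2 * l.sum = 2 * N + e := by
    rw [← hT.sum, Sm_sum hd, hl, Sm_list, Finset.mul_sum]
    congr 1
    refine Finset.sum_congr rfl fun u hu => ?_
    rw [hTn u (mem_range.1 hu), two_mul]
  have h1 := alls_spec _ h S [] H l hlen (by omega)
  rw [List.append_nil] at h1
  rcases Sm_bor h1 with h2 | h2
  · have h2' : dg q l 1 = true := h2
    obtain ⟨c, hc1, hc2⟩ := hT.gen q hq hqd
    have hv0 : c.val ≠ 0 := fun h0 => hc2 (by rw [h0]; exact dvd_zero _)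
    have hvd : c.val < d := ZMod.val_lt c
    rcases Nat.lt_or_ge h c.val with hv | hv
    · have hw : ¬ q ∣ (d - c.val - 1) + 1 := by
        intro h3
        have h4 : d - c.val - 1 + 1 = d - c.val := by omega
        rw [h4] at h3
        have h5 := (Nat.dvd_sub_iff_right (by omega) hqd).1 h3
        exact hc2 h5
      have h3 := dg_spec q l h2' (d - c.val - 1) hw
      rw [hget _ (by omega)] at h3
      have h4 : d - c.val - 1 + 1 = d - c.val := by omega
      rw [h4, Sm_neg hvd.le, ZMod.natCast_zmod_val, hT.symm] at h3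
      exact hc1 h3
    · have h4 : c.val - 1 + 1 = c.val := by omega
      have h3 := dg_spec q l h2' (c.val - 1) (by rw [h4]; exact hc2)
      rw [hget _ (by omega), h4, ZMod.natCast_zmod_val] at h3
      exact hc1 h3
  · rw [Sm_frc] at h2
    have hT0 : Nat.sub (Nat.add (Nat.mul 2 N) e) (Nat.mul 2 (lsum l)) = T 0 := by
      show 2 * N + e - 2 * lsum l = T 0
      rw [lsum_eq]
      omega
    have h3 : Nat.ble 1 (TightIndep.FM.hd (el M (pl d M z N l (Nat.sub (Nat.add (Nat.mul 2 N) e) (Nat.mul 2 (lsum l))) r 1) r)) = true := h2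
    rw [hT0] at h3
    have h4 := Nat.le_of_ble_eq_true h3
    obtain ⟨hpl1, hpl2⟩ := pl_spec d M z N hM l (T 0) r 1
    have h5 := el_eq M hM (pl d M z N l (T 0) r 1) (Pz N T (z : ZMod M)) (fun j hj => by
      rw [hpl1] at hj
      rw [hpl2 j hj]
      unfold Pz
      rw [add_comm 1 j, Sm_sum hd, hlen, ZMod.val_zero, mul_zero, pow_zero, mul_one]
      congr 2
      refine Finset.sum_congr rfl fun u hu => ?_
      have hu' := mem_range.1 hu
      rw [hget u hu', hTn u hu', ZMod.val_cast_of_lt (by omega), ZMod.val_cast_of_lt (by omega), mul_add,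
        mul_comm (u + 1) (j + 1), mul_comm (d - (u + 1)) (j + 1)]) r hpl1.ge
    rw [hT.eqn (ZMod M) (z : ZMod M) hz] at h5
    have h6 := (ZMod.natCast_eq_zero_iff _ _).1 h5.1
    have h7 := Nat.le_of_dvd (by omega) h6
    have h8 := h5.2
    omega

end TightIndep.FM
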