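import Pool.Agent.Lib.MP_f31b39_co.FM.Ch
import Pool.Agent.Lib.MP_f31b39_co.FM.Big
import Pool.Agent.Lib.MP_f31b39_co.FM.Fs
import Pool.Agent.Lib.MP_f31b39_co.FM.Sm

/-!
# FM-No: no tight set
-/

namespace TightIndep.FM

open Finset

theorem no_fast {G : Type} [AddCommGroup G] [Fintype G] (r p : ℕ) (hr : 1 ≤ r) (hp : p ≤ 1) (A : Finset G)
    (hm : 1 ≤ A.card) (hA : Tight (2 * r + p) A) (h : fast A.card r p = true) : False := by
  obtain ⟨q, hq, hdvd, hq2, hL⟩ := fast_spec A.card r p hm hp hr h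
  have : Fact q.Prime := ⟨hq⟩
  obtain ⟨hI, hG⟩ := hA
  obtain ⟨a, ha⟩ := fam_rel _ A hI
  obtain ⟨φ, hφ⟩ := exists_hom (G := G) q (by rw [hG]; exact hdvd)
  obtain ⟨T, hT⟩ := cl (2 * r + p) (by omega) hm a ha hG q (by omega) φ (surj_of_ne q φ hφ)
  have e1 : (2 * r + p) % 2 = p := by omega
  have e2 : (2 * r + p) / 2 = r := by omega
  rw [e1, e2] at hT
  exact big (A.card - p) (1 + p) r T hT (by omega) (by omega) (fun j hj => hL j (by omega))

theorem no_small {G : Type} [AddCommGroup G] [Fintype G] (r p : ℕ) (hr : 1 ≤ r) (hp : p ≤ 1) (A : Finset G)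
    (hm : 1 ≤ A.card) (hA : Tight (2 * r + p) A) (d h M z : ℕ) (hd : d.Prime) (hd2 : d = 2 * h + 1)
    (hdvd : d ∣ bound A.card (2 * r + p)) (hM : 2 ≤ M) (hz : ∑ i ∈ range d, z ^ i = M)
    (H : small d h d M z (A.card - p) (1 + p) r A.card = true) : False := by
  have : Fact d.Prime := ⟨hd⟩
  have hd3 : 3 ≤ d := by
    have := hd.two_le
    omega
  obtain ⟨hI, hG⟩ := hA
  obtain ⟨a, ha⟩ := fam_rel _ A hI
  obtain ⟨φ, hφ⟩ := exists_hom (G := G) d (by rw [hG]; exact hdvd)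
  obtain ⟨T, hT⟩ := cl (2 * r + p) (by omega) hm a ha hG d hd3 φ (surj_of_ne d φ hφ)
  have e1 : (2 * r + p) % 2 = p := by omega
  have e2 : (2 * r + p) / 2 = r := by omega
  rw [e1, e2] at hT
  refine small_spec h d M z (A.card - p) (1 + p) r A.card hd2 hd (dvd_refl d) hM ?_ (by omega) H T hT
  rw [Polynomial.cyclotomic_prime, map_sum]
  simp only [map_pow, Polynomial.aeval_X]
  have h1 : ((∑ i ∈ range d, z ^ i : ℕ) : ZMod M) = 0 := by
    rw [hz]
    exact ZMod.natCast_self M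
  rw [Nat.cast_sum] at h1
  simpa only [Nat.cast_pow] using h1

end TightIndep.FM
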