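import Pool.Agent.Lib.MP_f31b39_co.Final
import Pool.Agent.Lib.MP_f31b39_co.FM.No
import Pool.Agent.Lib.MP_f31b39_co.FM.Bk
import Pool.Agent.Lib.MP_f31b39_co.FM.Ds
import Pool.Agent.Lib.MP_f31b39_co.FM.D4
import Pool.Agent.Lib.MP_f31b39_co.FM.D32
import Pool.Agent.Lib.MP_f31b39_co.FM.D52
import Pool.Agent.Lib.MP_f31b39_co.FM.D72
import Pool.Agent.Lib.MP_f31b39_co.FM.D87

/-!
# FM-Fin: all `t`, at most 100 elements
-/

namespace TightIndep.FM

open Finset

theorem large (G : Type) [AddCommGroup G] [Fintype G] (t : ℕ) (A : Finset G)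
    (hA : Tight t A) (hm : 4 ≤ A.card) :
    t ≤ 2 * A.card + 5 ∧ (32 ≤ A.card → (t + 1) ^ 2 < 16 * A.card) := by
  rcases Nat.eq_zero_or_pos t with ht | ht
  · subst ht
    exact ⟨by omega, fun h => by omega⟩
  obtain ⟨L, hL⟩ := lat_of_tight t ht A (by omega) hA
  constructor
  · by_contra hcon
    exact no_lat_large hL hm (by omega)
  · intro h32
    by_contra hcon
    push Not at hcon
    apply no_lat_sqrt hL h32
    obtain ⟨s, hs⟩ : ∃ s, t / 2 + 1 = s := ⟨_, rfl⟩
    have h1 : t + 1 ≤ 2 * s := by omega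
    rw [hs]
    have h2 : (t + 1) ^ 2 ≤ (2 * s) ^ 2 := Nat.pow_le_pow_left h1 2
    nlinarith

/-- one exceptional pair -/
private theorem Fin_exc {G : Type} [AddCommGroup G] [Fintype G] {t : ℕ} {A : Finset G} (hA : Tight t A) (m r p : ℕ)
    (hc : A.card = m) (ht : t = 2 * r + p) (hr : 1 ≤ r) (hp : p ≤ 1) (hm : 1 ≤ m) (d h M z : ℕ) (hd : d.Prime)
    (hd2 : d = 2 * h + 1) (hb : bf m r p % d = 0) (hM : 2 ≤ M) (hz : ∑ i ∈ range d, z ^ i = M)
    (H : small d h d M z (m - p) (1 + p) r m = true) : False := by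
  subst ht
  refine no_small r p hr hp A (by omega) hA d h M z hd hd2 ?_ hM hz (by rw [hc]; exact H)
  rw [hc, ← bf_eq m r p hm hp]
  exact Nat.dvd_of_mod_eq_zero hb

theorem main (G : Type) [AddCommGroup G] [Fintype G] (t : ℕ) (A : Finset G)
    (hA : Tight t A) (hm : 4 ≤ A.card) (h100 : A.card ≤ 100) : t ≤ 7 ∨ (A.card = 4 ∧ t = 9) := by
  by_contra hcon
  push Not at hcon
  obtain ⟨h8, h49⟩ := hcon
  obtain ⟨hl, hs⟩ := large G t A hA hm
  obtain ⟨r, hr⟩ : ∃ r, r = t / 2 := ⟨_, rfl⟩
  obtain ⟨p, hp⟩ : ∃ p, p = t % 2 := ⟨_, rfl⟩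
  have htr : t = 2 * r + p := by omega
  have hp1 : p ≤ 1 := by omega
  have hr33 : r ≤ 33 := by
    rcases Nat.lt_or_ge A.card 32 with h | h
    · omega
    · have h1 := hs h
      by_contra hc
      have h2 : 68 ≤ t + 1 := by omega
      have h3 : 68 ^ 2 ≤ (t + 1) ^ 2 := Nat.pow_le_pow_left h2 2
      omega
  have hkey : fast A.card r p = true ∨ 256 * A.card + (2 * r + p) ∈
      [1033, 1804, 2069, 3594, 5897, 5899, 6159, 7688, 9227, 13323, 15114, 21259, 22793] := by
    have hs' : 32 ≤ A.card → (2 * r + p + 1) ^ 2 < 16 * A.card := fun h => by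
      rw [← htr]
      exact hs h
    rcases Nat.lt_or_ge A.card 32 with h | h
    · exact blk_spec 4 28 d4 _ r p hm (by omega) (by omega) hr33 hp1 (by omega) hs'
    rcases Nat.lt_or_ge A.card 52 with h' | h'
    · exact blk_spec 32 20 d32 _ r p h (by omega) (by omega) hr33 hp1 (by omega) hs'
    rcases Nat.lt_or_ge A.card 72 with h'' | h''
    · exact blk_spec 52 20 d52 _ r p h' (by omega) (by omega) hr33 hp1 (by omega) hs'
    rcases Nat.lt_or_ge A.card 87 with h3 | h3
    · exact blk_spec 72 15 d72 _ r p h'' (by omega) (by omega) hr33 hp1 (by omega) hs'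
    · exact blk_spec 87 14 d87 _ r p h3 (by omega) (by omega) hr33 hp1 (by omega) hs'
  have z3 : ∑ i ∈ range 3, 1000 ^ i = 1001001 := by
    simp [Finset.sum_range_succ]
  have z5 : ∑ i ∈ range 5, 30 ^ i = 837931 := by
    simp [Finset.sum_range_succ]
  have z7 : ∑ i ∈ range 7, 10 ^ i = 1111111 := by
    simp [Finset.sum_range_succ]
  rcases hkey with h | h
  · rw [htr] at hA
    exact no_fast r p (by omega) hp1 A (by omega) hA h
  rw [← htr] at h
  simp only [List.mem_cons, List.not_mem_nil, or_false] at h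
  have ht256 : t < 256 := by omega
  rcases h with h | h | h | h | h | h | h | h | h | h | h | h | h
  · exact h49 (by omega) (by omega)
  · exact Fin_exc hA 7 6 0 (by omega) (by omega) (by norm_num) (by norm_num) (by norm_num) 5 2 837931 30 (by norm_num) (by norm_num) b7 (by norm_num) z5 s7
  · exact Fin_exc hA 8 10 1 (by omega) (by omega) (by norm_num) (by norm_num) (by norm_num) 5 2 837931 30 (by norm_num) (by norm_num) b8 (by norm_num) z5 s8
  · exact Fin_exc hA 14 5 0 (by omega) (by omega) (by norm_num) (by norm_num) (by norm_num) 3 1 1001001 1000 (by norm_num) (by norm_num) b14 (by norm_num) z3 s14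
  · exact Fin_exc hA 23 4 1 (by omega) (by omega) (by norm_num) (by norm_num) (by norm_num) 3 1 1001001 1000 (by norm_num) (by norm_num) b23a (by norm_num) z3 s23a
  · exact Fin_exc hA 23 5 1 (by omega) (by omega) (by norm_num) (by norm_num) (by norm_num) 3 1 1001001 1000 (by norm_num) (by norm_num) b23b (by norm_num) z3 s23b
  · exact Fin_exc hA 24 7 1 (by omega) (by omega) (by norm_num) (by norm_num) (by norm_num) 7 3 1111111 10 (by norm_num) (by norm_num) b24 (by norm_num) z7 s24
  · exact Fin_exc hA 30 4 0 (by omega) (by omega) (by norm_num) (by norm_num) (by norm_num) 3 1 1001001 1000 (by norm_num) (by norm_num) b30 (by norm_num) z3 s30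
  · exact Fin_exc hA 36 5 1 (by omega) (by omega) (by norm_num) (by norm_num) (by norm_num) 3 1 1001001 1000 (by norm_num) (by norm_num) b36 (by norm_num) z3 s36
  · exact Fin_exc hA 52 5 1 (by omega) (by omega) (by norm_num) (by norm_num) (by norm_num) 3 1 1001001 1000 (by norm_num) (by norm_num) b52 (by norm_num) z3 s52
  · exact Fin_exc hA 59 5 0 (by omega) (by omega) (by norm_num) (by norm_num) (by norm_num) 3 1 1001001 1000 (by norm_num) (by norm_num) b59 (by norm_num) z3 s59
  · exact Fin_exc hA 83 5 1 (by omega) (by omega) (by norm_num) (by norm_num) (by norm_num) 3 1 1001001 1000 (by norm_num) (by norm_num) b83 (by norm_num) z3 s83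
  · exact Fin_exc hA 89 4 1 (by omega) (by omega) (by norm_num) (by norm_num) (by norm_num) 5 2 837931 30 (by norm_num) (by norm_num) b89 (by norm_num) z5 s89

end TightIndep.FM
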