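import Pool.Agent.Lib.MP_f31b39_co.FM.Defs

/-!
# FM-Id: two identities
-/

namespace TightIndep.FM

open Finset

private theorem Id_dF (n a b : ℕ) : n.descFactorial (a + b) = n.descFactorial a * (n - a).descFactorial b := by
  induction b with
  | zero => rw [Nat.add_zero, Nat.descFactorial_zero, Nat.mul_one]
  | succ b ih =>
    rw [← Nat.add_assoc, Nat.descFactorial_succ, ih, Nat.descFactorial_succ, Nat.sub_add_eq]
    ring

private theorem Id_ci (N e i : ℕ) : ci N e (i + 2) = ci N e i := by
  have h : Even (i + 2) ↔ Even i := by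
    rw [Nat.even_add]
    simp
  unfold ci
  simp only [h]

private theorem Id_ci1 (N e : ℕ) : ci N e 1 = 2 * N + e := by
  unfold ci
  rw [if_neg (by decide)]
  ring

private theorem Id_ci2 (N e : ℕ) : ci N e 2 = e := by
  unfold ci
  rw [if_pos (by decide)]
  rfl

private theorem Id_xx (N e : ℕ) : ∀ n : ℕ,
    xx N e (n + 1) = ∑ i ∈ range (n + 1), n.descFactorial i * ci N e (i + 1) * xx N e (n - i)
  | 0 => by
    rw [sum_range_one, Nat.descFactorial_zero, Nat.zero_add, Id_ci1, xx, xx]
    ring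
  | 1 => by
    rw [sum_range_succ, sum_range_one, Nat.descFactorial_zero, Nat.descFactorial_one, Nat.zero_add, Id_ci1,
      show 1 + 1 = 2 from rfl, Id_ci2, show 1 - 0 = 1 from rfl, Nat.sub_self]
    have a0 : xx N e 0 = 1 := by rw [xx]
    have a1 : xx N e 1 = 2 * N + e := by rw [xx]
    have a2 : xx N e 2 = (2 * N + e) * xx N e 1 + (0 + 1) * (0 + e) * xx N e 0 := by
      conv_lhs => rw [xx]
    rw [a2, a1, a0]
    ring
  | n + 2 => by
    have ih := Id_xx N e n
    rw [sum_range_succ', sum_range_succ']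
    have h1 : ∀ i ∈ range (n + 1), (n + 2).descFactorial (i + 1 + 1) * ci N e (i + 1 + 1 + 1) *
        xx N e (n + 2 - (i + 1 + 1)) = (n + 2) * (n + 1) * (n.descFactorial i * ci N e (i + 1) * xx N e (n - i)) := by
      intro i _
      have e1 : (n + 2).descFactorial (i + 1 + 1) = (n + 2) * ((n + 1) * n.descFactorial i) := by
        rw [Nat.succ_descFactorial_succ, Nat.succ_descFactorial_succ]
      have e2 : ci N e (i + 1 + 1 + 1) = ci N e (i + 1) := Id_ci N e (i + 1)
      have e3 : n + 2 - (i + 1 + 1) = n - i := by omega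
      rw [e1, e2, e3]
      ring
    have e4 : (n + 2).descFactorial (0 + 1) = n + 2 := Nat.descFactorial_one _
    have e5 : ci N e (0 + 1 + 1) = e := Id_ci2 N e
    have e6 : n + 2 - (0 + 1) = n + 1 := by omega
    have e7 : (n + 2).descFactorial 0 = 1 := Nat.descFactorial_zero _
    have e8 : ci N e (0 + 1) = 2 * N + e := Id_ci1 N e
    have e9 : n + 2 - 0 = n + 2 := by omega
    have e10 : xx N e (n + 2 + 1) = (2 * N + e) * xx N e (n + 2) + (n + 1 + 1) * (n + 1 + e) * xx N e (n + 1) := by
      show xx N e ((n + 1) + 2) = _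
      rw [xx]
    rw [sum_congr rfl h1, ← mul_sum, ← ih, e4, e5, e6, e7, e8, e9, e10]
    ring

theorem xx_succ (N e n : ℕ) :
    xx N e (n + 1) = ∑ i ∈ range (n + 1), n.descFactorial i * ci N e (i + 1) * xx N e (n - i) :=
  Id_xx N e n

theorem LL_succ (N e k n : ℕ) :
    LL N e k (n + 1) = ∑ i ∈ range (n + 1), n.descFactorial i *
      (ci N e (i + 1) * LL N e k (n - i) + (i + 1) ^ (k + 1) * xx N e (n - i)) := by
  have hL : LL N e k (n + 1) = ∑ l ∈ range (n + 1), (n.descFactorial (l + 1) * ((l + 1) ^ k * xx N e (n - l)) +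
      n.descFactorial l * ((l + 1) ^ (k + 1) * xx N e (n - l))) := by
    unfold LL
    refine sum_congr rfl fun l hl => ?_
    have hl' : l ≤ n := Nat.lt_succ_iff.1 (mem_range.1 hl)
    obtain ⟨q, rfl⟩ := Nat.exists_eq_add_of_le hl'
    have e1 : l + q + 1 - 1 - l = q := by omega
    have e2 : l + q - l = q := by omega
    rw [Nat.succ_descFactorial_succ, Nat.descFactorial_succ, e1, e2]
    ring
  have hR : ∑ i ∈ range (n + 1), n.descFactorial i *
      (ci N e (i + 1) * LL N e k (n - i) + (i + 1) ^ (k + 1) * xx N e (n - i)) =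
      ∑ i ∈ range (n + 1), n.descFactorial i * (ci N e (i + 1) * LL N e k (n - i)) +
      ∑ i ∈ range (n + 1), n.descFactorial i * ((i + 1) ^ (k + 1) * xx N e (n - i)) := by
    rw [← sum_add_distrib]
    exact sum_congr rfl fun i _ => Nat.mul_add _ _ _
  rw [hL, hR, sum_add_distrib]
  congr 1
  have h0 : n.descFactorial (n + 1) = 0 := Nat.descFactorial_of_lt (Nat.lt_succ_self n)
  rw [sum_range_succ, h0, Nat.zero_mul, Nat.add_zero]
  have h1 : ∀ l ∈ range n, n.descFactorial (l + 1) * ((l + 1) ^ k * xx N e (n - l)) =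
      ∑ i ∈ range (n - l), (l + 1) ^ k * n.descFactorial (l + 1 + i) * ci N e (i + 1) * xx N e (n - l - 1 - i) := by
    intro l hl
    have hl' := mem_range.1 hl
    obtain ⟨q, hq⟩ : ∃ q, n - l = q + 1 := ⟨n - l - 1, by omega⟩
    have e1 : n - (l + 1) = q := by omega
    rw [hq, xx_succ, mul_sum, mul_sum]
    refine sum_congr rfl fun i _ => ?_
    rw [Id_dF n (l + 1) i, e1, Nat.add_sub_cancel]
    ring
  have h2 : ∀ i ∈ range (n + 1), n.descFactorial i * (ci N e (i + 1) * LL N e k (n - i)) =
      ∑ l ∈ range (n - i), (l + 1) ^ k * n.descFactorial (l + 1 + i) * ci N e (i + 1) * xx N e (n - l - 1 - i) := by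
    intro i _
    unfold LL
    rw [mul_sum, mul_sum]
    refine sum_congr rfl fun l _ => ?_
    have e1 : n - i - 1 - l = n - l - 1 - i := by omega
    rw [Nat.add_comm (l + 1) i, Id_dF n i (l + 1), e1]
    ring
  rw [sum_congr rfl h1, sum_congr rfl h2]
  refine sum_comm' fun l i => ?_
  simp only [mem_range]
  omega

end TightIndep.FM
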