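import Pool.Agent.Lib.MP_f31b39_co.FM.Lf
import Pool.Agent.Lib.MP_f31b39_co.FM.Id

/-!
# FM-Ind: the first nonvanishing power sum
-/

namespace TightIndep.FM

open Finset

private theorem Lf_term {p : ℕ} (j a : ℕ) (P Q : Polynomial (ZMod p)) :
    Lf p j ((a : Polynomial (ZMod p)) * P * Q) = (a : ZMod p) * SX.bc (fun l => Lf p l P) (fun l => Lf p l Q) j := by
  rw [mul_assoc, ← Polynomial.C_eq_natCast, Polynomial.C_mul', map_smul, Lf_mul, smul_eq_mul]

private theorem three {p : ℕ} [Fact p.Prime] (N e r : ℕ) (T : ZMod p → ℕ) (hT : Cl p N e r T) (k : ℕ)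
    (h : ∀ j, 1 ≤ j → j ≤ k → SX.ps T j = 0) (n : ℕ) :
    Lf p 0 (EN (Pz N T (Polynomial.X : Polynomial (ZMod p))) n) = (xx N e n : ZMod p) ∧
    (∀ j, 1 ≤ j → j ≤ k → Lf p j (EN (Pz N T (Polynomial.X : Polynomial (ZMod p))) n) = 0) ∧
    Lf p (k + 1) (EN (Pz N T (Polynomial.X : Polynomial (ZMod p))) n) = SX.ps T (k + 1) * (LL N e k n : ZMod p) := by
  induction n using Nat.strong_induction_on with
  | _ n ih =>
    rcases n with _ | n
    · rw [EN_zero, ← Polynomial.C_1]
      refine ⟨?_, fun j hj _ => Lf_C p j hj 1, ?_⟩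
      · rw [Lf_zero_C, xx, Nat.cast_one]
      · rw [Lf_C p (k + 1) (by omega), LL, Finset.sum_range_zero, Nat.cast_zero, mul_zero]
    · have hi : ∀ i ∈ range (n + 1), n - i < n + 1 := fun i _ => by omega
      rw [EN_succ]
      refine ⟨?_, fun j hj hjk => ?_, ?_⟩
      · rw [map_sum]
        have h1 := congrArg (Nat.cast : ℕ → ZMod p) (xx_succ N e n)
        rw [h1]
        push_cast
        refine Finset.sum_congr rfl fun i hir => ?_
        rw [Lf_term, SX.bc]
        rw [Finset.sum_range_one, Nat.choose_self, Nat.cast_one, one_mul, Nat.sub_self, Lf_zero_Pz N e T hT.sum,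
          (ih (n - i) (hi i hir)).1]
        ring
      · rw [map_sum]
        refine Finset.sum_eq_zero fun i hir => ?_
        rw [Lf_term, SX.bc]
        rw [Finset.sum_eq_zero, mul_zero]
        intro l hl
        have hl' := Finset.mem_range.1 hl
        rcases Nat.eq_zero_or_pos l with rfl | hl0
        · rw [Nat.sub_zero, (ih (n - i) (hi i hir)).2.1 j hj hjk, mul_zero]
        · rw [Lf_Pz N T (i + 1) l hl0, h l hl0 (by omega), mul_zero, mul_zero, zero_mul]
      · rw [map_sum]
        have h1 := congrArg (Nat.cast : ℕ → ZMod p) (LL_succ N e k n)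
        rw [h1]
        push_cast
        rw [Finset.mul_sum]
        refine Finset.sum_congr rfl fun i hir => ?_
        rw [Lf_term, SX.bc, Finset.sum_range_succ, Finset.sum_range_succ']
        rw [Finset.sum_eq_zero, zero_add, Nat.sub_zero, Nat.sub_self, Nat.choose_self, Nat.choose_zero_right,
          Lf_zero_Pz N e T hT.sum, (ih (n - i) (hi i hir)).1, (ih (n - i) (hi i hir)).2.2, Lf_Pz N T (i + 1) (k + 1) (by omega)]
        · push_cast
          ring
        · intro l hl
          have hl' := Finset.mem_range.1 hl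
          rw [Lf_Pz N T (i + 1) (l + 1) (by omega), h (l + 1) (by omega) (by omega), mul_zero, mul_zero, zero_mul]

theorem ind {p : ℕ} [Fact p.Prime] (N e r : ℕ) (T : ZMod p → ℕ) (hT : Cl p N e r T) (k : ℕ)
    (hk : k + 3 ≤ p) (h : ∀ j, 1 ≤ j → j ≤ k → SX.ps T j = 0) :
    SX.ps T (k + 1) * (LL N e k r : ZMod p) = 0 := by
  rw [← (three N e r T hT k h r).2.2]
  exact Lf_EN N e r T hT (k + 1) (by omega)

end TightIndep.FM
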