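import Pool.Agent.Lib.MP_f31b39_co.FM.Tr

/-!
# FM-Lf: the functional `X ^ i ↦ i ^ k` on the polynomials modulo a prime
-/

namespace TightIndep.FM

open Finset

noncomputable def Lf (p k : ℕ) : Polynomial (ZMod p) →ₗ[ZMod p] ZMod p :=
  Polynomial.lsum fun i => ((i : ZMod p) ^ k) • LinearMap.id

private theorem Lf_monomial (p k i : ℕ) (a : ZMod p) :
    Lf p k (Polynomial.monomial i a) = (i : ZMod p) ^ k * a := by
  unfold Lf
  rw [Polynomial.lsum_apply, Polynomial.sum_monomial_index]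
  · simp
  · simp

theorem Lf_mul (p k : ℕ) (P Q : Polynomial (ZMod p)) :
    Lf p k (P * Q) = SX.bc (fun l => Lf p l P) (fun l => Lf p l Q) k := by
  unfold SX.bc
  induction P using Polynomial.induction_on' with
  | add P₁ P₂ h₁ h₂ =>
    rw [add_mul, map_add, h₁, h₂, ← Finset.sum_add_distrib]
    refine Finset.sum_congr rfl fun l _ => ?_
    beta_reduce
    rw [map_add]
    ring
  | monomial i a =>
    induction Q using Polynomial.induction_on' with
    | add Q₁ Q₂ h₁ h₂ =>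
      rw [mul_add, map_add, h₁, h₂, ← Finset.sum_add_distrib]
      refine Finset.sum_congr rfl fun l _ => ?_
      beta_reduce
      rw [map_add]
      ring
    | monomial j b =>
      rw [Polynomial.monomial_mul_monomial, Lf_monomial, Nat.cast_add, add_pow, Finset.sum_mul]
      refine Finset.sum_congr rfl fun l _ => ?_
      beta_reduce
      rw [Lf_monomial, Lf_monomial]
      ring

private theorem Lf_cyc {p : ℕ} [Fact p.Prime] {l : ℕ} (hl : l + 2 ≤ p) :
    Lf p l (Polynomial.cyclotomic p (ZMod p)) = 0 := by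
  rw [Polynomial.cyclotomic_prime, map_sum]
  have h1 : ∑ i ∈ range p, Lf p l (Polynomial.X ^ i) = ∑ i ∈ range p, ((i : ℕ) : ZMod p) ^ l := by
    refine Finset.sum_congr rfl fun i _ => ?_
    rw [← Polynomial.monomial_one_right_eq_X_pow, Lf_monomial, mul_one]
  have h2 : ∑ i ∈ range p, ((i : ℕ) : ZMod p) ^ l = ∑ x : ZMod p, x ^ l := by
    refine Finset.sum_bij' (fun i _ => ((i : ℕ) : ZMod p)) (fun x _ => x.val) ?_ ?_ ?_ ?_ ?_
    · intro i _
      exact mem_univ _
    · intro x _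
      exact mem_range.2 (ZMod.val_lt x)
    · intro i hi
      exact ZMod.val_cast_of_lt (mem_range.1 hi)
    · intro x _
      exact ZMod.natCast_zmod_val x
    · intro i _
      rfl
  rw [h1, h2]
  refine FiniteField.sum_pow_lt_card_sub_one (ZMod p) l ?_
  rw [ZMod.card]
  omega

private theorem Lf_cyc_mul {p : ℕ} [Fact p.Prime] {k : ℕ} (hk : k + 2 ≤ p) (G : Polynomial (ZMod p)) :
    Lf p k (Polynomial.cyclotomic p (ZMod p) * G) = 0 := by
  rw [Lf_mul]
  unfold SX.bc
  refine Finset.sum_eq_zero fun l hl => ?_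
  have hl' := mem_range.1 hl
  beta_reduce
  rw [Lf_cyc (by omega), mul_zero, zero_mul]

theorem Lf_C (p k : ℕ) (hk : 1 ≤ k) (x : ZMod p) : Lf p k (Polynomial.C x) = 0 := by
  rw [← Polynomial.monomial_zero_left, Lf_monomial, Nat.cast_zero, zero_pow (by omega), zero_mul]

theorem Lf_zero_C (p : ℕ) (x : ZMod p) : Lf p 0 (Polynomial.C x) = x := by
  rw [← Polynomial.monomial_zero_left, Lf_monomial, pow_zero, one_mul]

private theorem Pz_poly {p : ℕ} [Fact p.Prime] (N : ℕ) (T : ZMod p → ℕ) (l : ℕ) :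
    Pz N T (Polynomial.X : Polynomial (ZMod p)) l =
      ∑ c, Polynomial.monomial (l * c.val) ((T c : ℕ) : ZMod p) -
        Polynomial.C (if Even l then 2 * (N : ZMod p) else 0) := by
  unfold Pz
  congr 1
  · refine Finset.sum_congr rfl fun c _ => ?_
    rw [← Polynomial.C_mul_X_pow_eq_monomial, map_natCast]
  · split_ifs
    · rw [map_mul, map_natCast, map_ofNat]
    · rw [map_zero]

theorem Lf_Pz {p : ℕ} [Fact p.Prime] (N : ℕ) (T : ZMod p → ℕ) (l k : ℕ) (hk : 1 ≤ k) :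
    Lf p k (Pz N T (Polynomial.X : Polynomial (ZMod p)) l) = (l : ZMod p) ^ k * SX.ps T k := by
  rw [Pz_poly, map_sub, Lf_C p k hk, sub_zero, map_sum]
  unfold SX.ps
  rw [Finset.mul_sum]
  refine Finset.sum_congr rfl fun c _ => ?_
  rw [Lf_monomial, Nat.cast_mul, ZMod.natCast_zmod_val, mul_pow]
  ring

theorem Lf_zero_Pz {p : ℕ} [Fact p.Prime] (N e : ℕ) (T : ZMod p → ℕ) (hT : ∑ c, T c = 2 * N + e)
    (l : ℕ) : Lf p 0 (Pz N T (Polynomial.X : Polynomial (ZMod p)) l) = (ci N e l : ZMod p) := by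
  rw [Pz_poly, map_sub, Lf_zero_C, map_sum]
  have h1 : ∑ c, Lf p 0 (Polynomial.monomial (l * c.val) ((T c : ℕ) : ZMod p)) =
      ((2 * N + e : ℕ) : ZMod p) := by
    rw [← hT, Nat.cast_sum]
    refine Finset.sum_congr rfl fun c _ => ?_
    rw [Lf_monomial, pow_zero, one_mul]
  rw [h1]
  unfold ci
  split_ifs
  · push_cast
    ring
  · push_cast
    ring

private theorem mk_Pz {p : ℕ} [Fact p.Prime] (N : ℕ) (T : ZMod p → ℕ) (l : ℕ) (Φ : Polynomial (ZMod p)) :
    AdjoinRoot.mk Φ (Pz N T (Polynomial.X : Polynomial (ZMod p)) l) = Pz N T (AdjoinRoot.root Φ) l := by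
  have h1 : AdjoinRoot.mk Φ (∑ c, ((T c : ℕ) : Polynomial (ZMod p)) * Polynomial.X ^ (l * c.val)) =
      ∑ c, ((T c : ℕ) : AdjoinRoot Φ) * AdjoinRoot.root Φ ^ (l * c.val) := by
    rw [map_sum]
    refine Finset.sum_congr rfl fun c _ => ?_
    rw [map_mul, map_pow, AdjoinRoot.mk_X, map_natCast]
  have h2 : AdjoinRoot.mk Φ (if Even l then 2 * (N : Polynomial (ZMod p)) else 0) =
      if Even l then 2 * (N : AdjoinRoot Φ) else 0 := by
    split_ifs
    · rw [map_mul, map_natCast, map_ofNat]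
    · rw [map_zero]
  unfold Pz
  rw [map_sub, h1, h2]

theorem Lf_EN {p : ℕ} [Fact p.Prime] (N e r : ℕ) (T : ZMod p → ℕ) (hT : Cl p N e r T) (k : ℕ)
    (hk : k + 2 ≤ p) : Lf p k (EN (Pz N T (Polynomial.X : Polynomial (ZMod p))) r) = 0 := by
  set Φ := Polynomial.cyclotomic p (ZMod p) with hΦ
  have hz : Polynomial.aeval (AdjoinRoot.root Φ) (Polynomial.cyclotomic p ℤ) = 0 := by
    have h1 := AdjoinRoot.eval₂_root Φ
    rw [Polynomial.eval₂_eq_eval_map, hΦ, Polynomial.map_cyclotomic] at h1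
    rw [Polynomial.aeval_def, Polynomial.eval₂_eq_eval_map, Polynomial.map_cyclotomic]
    exact h1
  have h1 := hT.eqn (AdjoinRoot Φ) (AdjoinRoot.root Φ) hz
  have h2 : AdjoinRoot.mk Φ (EN (Pz N T (Polynomial.X : Polynomial (ZMod p))) r) = 0 := by
    rw [EN_map]
    rw [← h1]
    congr 1
    funext l
    exact mk_Pz N T l Φ
  obtain ⟨G, hG⟩ := AdjoinRoot.mk_eq_zero.1 h2
  rw [hG]
  exact Lf_cyc_mul hk G

end TightIndep.FM
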