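import Pool.Agent.Lib.MP_f31b39_co.D3_4
import Pool.Agent.Lib.MP_f31b39_co.D3_6
import Pool.Agent.Lib.MP_f31b39_co.D3_7
import Pool.Agent.Lib.MP_f31b39_co.D3_8
import Pool.Agent.Lib.MP_f31b39_co.D3_9
import Pool.Agent.Lib.MP_f31b39_co.D3_10
import Pool.Agent.Lib.MP_f31b39_co.D3_11
import Pool.Agent.Lib.MP_f31b39_co.D3_12
import Pool.Agent.Lib.MP_f31b39_co.D3_13
import Pool.Agent.Lib.MP_f31b39_co.D3_14
import Pool.Agent.Lib.MP_f31b39_co.D3_15
import Pool.Agent.Lib.MP_f31b39_co.D4_4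
import Pool.Agent.Lib.MP_f31b39_co.D4_5
import Pool.Agent.Lib.MP_f31b39_co.D4_6
import Pool.Agent.Lib.MP_f31b39_co.D4_7
import Pool.Agent.Lib.MP_f31b39_co.D4_9
import Pool.Agent.Lib.MP_f31b39_co.D5_4
import Pool.Agent.Lib.MP_f31b39_co.D5_5
import Pool.Agent.Lib.MP_f31b39_co.D5_6
import Pool.Agent.Lib.MP_f31b39_co.D5_7
import Pool.Agent.Lib.MP_f31b39_co.D6_4
import Pool.Agent.Lib.MP_f31b39_co.D6_5
import Pool.Agent.Lib.MP_f31b39_co.D6_6
import Pool.Agent.Lib.MP_f31b39_co.D6_7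
import Pool.Agent.Lib.MP_f31b39_co.Three
import Pool.Agent.Lib.MP_f31b39_co.Family

/-!
# FM-S6: three to six elements, `t ≤ 7` or three elements or `(4, 9)`
-/

namespace TightIndep.FM

private theorem size3 (t : ℕ) (ht : 4 ≤ t) (h5 : t ≠ 5) {L : Set (Fin 3 → ℤ)}
    (hL : Lat 3 (t / 2 + 1) (t + 1) L) : False := by
  by_cases h : 16 ≤ t
  · exact no_lat_three hL (by omega)
  · have h' : t < 16 := by omega
    interval_cases t
    · exact D3_4.no hL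
    · exact h5 rfl
    · exact D3_6.no hL
    · exact D3_7.no hL
    · exact D3_8.no hL
    · exact D3_9.no hL
    · exact D3_10.no hL
    · exact D3_11.no hL
    · exact D3_12.no hL
    · exact D3_13.no hL
    · exact D3_14.no hL
    · exact D3_15.no hL

private theorem size4 (t : ℕ) (ht : 4 ≤ t) (h7 : t ≤ 7 ∨ t = 9) {L : Set (Fin 4 → ℤ)}
    (hL : Lat 4 (t / 2 + 1) (t + 1) L) : False := by
  have h' : t = 4 ∨ t = 5 ∨ t = 6 ∨ t = 7 ∨ t = 9 := by omega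
  rcases h' with rfl | rfl | rfl | rfl | rfl
  · exact D4_4.no hL
  · exact D4_5.no hL
  · exact D4_6.no hL
  · exact D4_7.no hL
  · exact D4_9.no hL

private theorem size5 (t : ℕ) (ht : 4 ≤ t) (h7 : t ≤ 7) {L : Set (Fin 5 → ℤ)}
    (hL : Lat 5 (t / 2 + 1) (t + 1) L) : False := by
  interval_cases t
  · exact D5_4.no hL
  · exact D5_5.no hL
  · exact D5_6.no hL
  · exact D5_7.no hL

private theorem size6 (t : ℕ) (ht : 4 ≤ t) (h7 : t ≤ 7) {L : Set (Fin 6 → ℤ)}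
    (hL : Lat 6 (t / 2 + 1) (t + 1) L) : False := by
  interval_cases t
  · exact D6_4.no hL
  · exact D6_5.no hL
  · exact D6_6.no hL
  · exact D6_7.no hL

private theorem smallLat (m t : ℕ) (ht : 4 ≤ t) (hm : 3 ≤ m) (hm' : m ≤ 6)
    (h7 : m = 3 ∨ t ≤ 7 ∨ (m = 4 ∧ t = 9)) {L : Set (Fin m → ℤ)}
    (hL : Lat m (t / 2 + 1) (t + 1) L) : m = 3 ∧ t = 5 := by
  by_contra hcon
  interval_cases m
  · exact size3 t ht (fun h => hcon ⟨rfl, h⟩) hL
  · exact size4 t ht (by omega) hL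
  · exact size5 t ht (by omega) hL
  · exact size6 t ht (by omega) hL

theorem smallSize (G : Type) [AddCommGroup G] [Fintype G] (t : ℕ) (A : Finset G)
    (hA : Tight t A) (ht : 4 ≤ t) (hm : 3 ≤ A.card) (hm' : A.card ≤ 6)
    (h7 : A.card = 3 ∨ t ≤ 7 ∨ (A.card = 4 ∧ t = 9)) :
    A.card = 3 ∧ t = 5 ∧ Fintype.card G = 38 := by
  obtain ⟨L, hL⟩ := lat_of_tight t (by omega) A (by omega) hA
  obtain ⟨h1, h2⟩ := smallLat A.card t ht hm hm' h7 hL
  refine ⟨h1, h2, ?_⟩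
  rw [hA.2, h1, h2]
  decide

end TightIndep.FM
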