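import Pool.Agent.Lib.MP_f31b39_co.FM.CkD

/-!
# FM-SmD: the check for small `d`, definitions
-/

namespace TightIndep.FM

/-- `E_(n+1)` from `[E_n, ..., E_0]` and `[P_1, P_2, ...]` -/
noncomputable def nxt (Es : List ℕ) : List ℕ → ℕ → ℕ → ℕ :=
  @List.rec ℕ (fun _ => List ℕ → ℕ → ℕ → ℕ) (fun _ _ _ => nat_lit 0) (fun E _ ih Ps ρ D =>
    Nat.add (Nat.mul (Nat.mul D (hd Ps)) E) (frc (Nat.mul D ρ) fun D' => ih (tl Ps) (Nat.sub ρ (nat_lit 1)) D')) Es

/-- the list `[E_n, ..., E_0]` modulo `M` -/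
noncomputable def el (M : ℕ) (Ps : List ℕ) : ℕ → List ℕ :=
  @Nat.rec (fun _ => List ℕ) [nat_lit 1] fun n ih =>
    frc (Nat.mod (nxt ih Ps n (nat_lit 1)) M) fun v => List.cons v ih

/-- the sum of a list -/
noncomputable def lsum (l : List ℕ) : ℕ := @List.rec ℕ (fun _ => ℕ) (nat_lit 0) (fun a _ ih => Nat.add a ih) l

/-- `∑_j t_j (z ^ (j i) + z ^ ((d - j) i))` -/
noncomputable def dt (d z i : ℕ) (l : List ℕ) : ℕ → ℕ :=
  @List.rec ℕ (fun _ => ℕ → ℕ) (fun _ => nat_lit 0) (fun a _ ih j =>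
    Nat.add (Nat.mul a (Nat.add (Nat.pow z (Nat.mul j i)) (Nat.pow z (Nat.mul (Nat.sub d j) i))))
      (ih (Nat.succ j))) l

/-- the list `[P_i, P_(i+1), ...]` of `k` numbers, `T0 = T 0` -/
noncomputable def pl (d M z N : ℕ) (l : List ℕ) (T0 : ℕ) : ℕ → ℕ → List ℕ :=
  @Nat.rec (fun _ => ℕ → List ℕ) (fun _ => []) fun _ ih i =>
    frc (Nat.mod (Nat.add (Nat.add T0 (dt d z i l (nat_lit 1)))
      (@Nat.rec (fun _ => ℕ) (Nat.mul (Nat.mul (nat_lit 2) N) (Nat.sub M (nat_lit 1))) (fun _ _ => nat_lit 0)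
        (Nat.mod i (nat_lit 2)))) M) fun v => List.cons v (ih (Nat.succ i))

/-- all the `t_j` with `q ∤ j` are zero -/
noncomputable def dg (q : ℕ) (l : List ℕ) : ℕ → Bool :=
  @List.rec ℕ (fun _ => ℕ → Bool) (fun _ => true) (fun a _ ih j =>
    band (bor (Nat.beq (Nat.mod j q) (nat_lit 0)) (Nat.beq a (nat_lit 0))) (ih (Nat.succ j))) l

/-- the check of the numbers `t_1, ..., t_h` of a symmetric function on `ZMod d`, `d = 2 h + 1` -/
noncomputable def leaf (d q M z N e r : ℕ) (l : List ℕ) : Bool :=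
  bor (dg q l (nat_lit 1))
    (frc (Nat.sub (Nat.add (Nat.mul (nat_lit 2) N) e) (Nat.mul (nat_lit 2) (lsum l))) fun T0 =>
      Nat.ble (nat_lit 1) (hd (el M (pl d M z N l T0 r (nat_lit 1)) r)))

/-- all lists `l` of length `h` with sum at most `S`, followed by `acc` -/
noncomputable def alls (f : List ℕ → Bool) : ℕ → ℕ → List ℕ → Bool :=
  @Nat.rec (fun _ => ℕ → List ℕ → Bool) (fun _ acc => f acc) fun _ ih S acc =>
    @Nat.rec (fun _ => Bool) (ih S (List.cons (nat_lit 0) acc)) (fun a ihh =>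
      band (frc (Nat.succ a) fun a' => ih (Nat.sub S a') (List.cons a' acc)) ihh) S

/-- the check for `d = 2 h + 1` -/
noncomputable def small (d h q M z N e r S : ℕ) : Bool :=
  alls (leaf d q M z N e r) h S []

end TightIndep.FM
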