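import Pool.Agent.Lib.MP_f31b39_co.FM.Defs

/-!
# FM-Tr: transfer to all rings
-/

namespace TightIndep.FM

open Finset

theorem EN_map {R S : Type} [CommRing R] [CommRing S] (f : R →+* S) (P : ℕ → R) (n : ℕ) :
    f (EN P n) = EN (fun l => f (P l)) n := by
  induction n using Nat.strong_induction_on with
  | _ n ih =>
    cases n with
    | zero => rw [EN_zero, EN_zero, map_one]
    | succ k =>
      rw [EN_succ, EN_succ, map_sum]
      refine sum_congr rfl fun i hi => ?_
      rw [map_mul, map_mul, map_natCast, ih (k - i) (by omega)]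

theorem EN_congr {R : Type} [CommRing R] (P Q : ℕ → R) (n : ℕ) (h : ∀ l, 1 ≤ l → l ≤ n → P l = Q l) :
    EN P n = EN Q n := by
  induction n using Nat.strong_induction_on with
  | _ n ih =>
    cases n with
    | zero => rw [EN_zero, EN_zero]
    | succ k =>
      rw [EN_succ, EN_succ]
      refine sum_congr rfl fun i hi => ?_
      have hi' : i < k + 1 := mem_range.1 hi
      rw [ih (k - i) (by omega) fun l h1 h2 => h l h1 (by omega), h (i + 1) (by omega) (by omega)]

theorem EN_cc (P : ℕ → ℂ) (n : ℕ) : EN P n = (n.factorial : ℂ) * cc P n := by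
  induction n using Nat.strong_induction_on with
  | _ n ih =>
    cases n with
    | zero => rw [EN_zero, cc_zero, Nat.factorial_zero, Nat.cast_one, mul_one]
    | succ k =>
      have hk : ((k : ℂ) + 1) ≠ 0 := by exact_mod_cast Nat.succ_ne_zero k
      have h1 : (((k + 1).factorial : ℕ) : ℂ) * cc P (k + 1) =
          (k.factorial : ℂ) * ∑ i ∈ range (k + 1), P (i + 1) * cc P (k - i) := by
        rw [cc_succ, Nat.factorial_succ, Nat.cast_mul, Nat.cast_add, Nat.cast_one]
        field_simp
      rw [h1, EN_succ, mul_sum]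
      refine sum_congr rfl fun i hi => ?_
      have hi' : i < k + 1 := mem_range.1 hi
      rw [ih (k - i) (by omega)]
      have h2 : (((k - i).factorial : ℕ) : ℂ) * (k.descFactorial i : ℂ) = (k.factorial : ℂ) := by
        rw [← Nat.cast_mul, Nat.factorial_mul_descFactorial (by omega)]
      rw [← h2]
      ring

private theorem Pz_map {R S : Type} [CommRing R] [CommRing S] (f : R →+* S) {d : ℕ} [NeZero d] (N : ℕ)
    (T : ZMod d → ℕ) (x : R) (l : ℕ) : f (Pz N T x l) = Pz N T (f x) l := by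
  unfold Pz
  rw [map_sub, map_sum]
  congr 1
  · refine sum_congr rfl fun c _ => ?_
    rw [map_mul, map_pow, map_natCast]
  · split_ifs
    · rw [map_mul, map_natCast, map_ofNat]
    · rw [map_zero]

private theorem ev {d : ℕ} [NeZero d] (N r : ℕ) (T : ZMod d → ℕ) (S : Type) [CommRing S] (x : S) :
    Polynomial.aeval x (EN (Pz N T (Polynomial.X : Polynomial ℤ)) r) = EN (Pz N T x) r := by
  have h := EN_map (Polynomial.aeval x : Polynomial ℤ →ₐ[ℤ] S).toRingHom (Pz N T (Polynomial.X : Polynomial ℤ)) r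
  have h2 : (fun l => (Polynomial.aeval x : Polynomial ℤ →ₐ[ℤ] S).toRingHom
      (Pz N T (Polynomial.X : Polynomial ℤ) l)) = Pz N T x := by
    funext l
    rw [Pz_map]
    congr 1
    exact Polynomial.aeval_X x
  rw [h2] at h
  exact h

theorem tr {d : ℕ} [NeZero d] (N r : ℕ) (T : ZMod d → ℕ) (ζ : ℂ) (hζ : IsPrimitiveRoot ζ d)
    (h : cc (pw N fun l => ∑ c, (T c : ℂ) * ζ ^ (l * c.val)) r = 0) (R : Type) [CommRing R] (z : R)
    (hz : Polynomial.aeval z (Polynomial.cyclotomic d ℤ) = 0) : EN (Pz N T z) r = 0 := by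
  have hd0 : 0 < d := Nat.pos_of_ne_zero (NeZero.ne d)
  have hF : Polynomial.aeval ζ (EN (Pz N T (Polynomial.X : Polynomial ℤ)) r) = 0 := by
    rw [ev, EN_cc]
    have h1 : Pz N T ζ = pw N fun l => ∑ c, (T c : ℂ) * ζ ^ (l * c.val) := rfl
    rw [h1, h, mul_zero]
  have hdvd : Polynomial.cyclotomic d ℤ ∣ EN (Pz N T (Polynomial.X : Polynomial ℤ)) r := by
    rw [Polynomial.cyclotomic_eq_minpoly hζ hd0]
    exact minpoly.isIntegrallyClosed_dvd (hζ.isIntegral hd0) hF
  obtain ⟨g, hg⟩ := hdvd
  rw [← ev, hg, map_mul, hz, zero_mul]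

end TightIndep.FM
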